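import Mathlib

/-!
# Independent flips and sums of absolute values
-/

set_option autoImplicit false
set_option linter.unusedSectionVars false

namespace Pool.Agent.W484.AA

/-- If all the flips are available, an upper bound for the sums of the deviations gives the same
bound for the sums of the absolute values. -/
theorem abs_sum_le {X G : Type*} [Group G] [Fintype G] [MulAction G X] (inv : X → X) (u : X → ℝ)
    {n : ℕ} (x : Fin n → X)
    (hinv : ∀ k, inv (inv (x k)) = x k) (hG : ∀ (g : G) y, g • inv y = inv (g • y))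
    (hu : ∀ (g : G) k, u (g • inv (x k)) = -u (g • x k))
    (hno : ∀ k l, x l ≠ inv (x k))
    (hflip : ∀ k, ∃ ψ : G, ψ • x k = inv (x k) ∧ ∀ l, x l ≠ x k → ψ • x l = x l)
    (B : ℝ) (hB : ∀ g : G, ∑ k, u (g • x k) ≤ B) (g : G) : ∑ k, |u (g • x k)| ≤ B := by
  classical
  let Φ : Finset G := Finset.univ.filter (fun φ => ∀ k, φ • x k = x k ∨ φ • x k = inv (x k))
  have h1 : (1 : G) ∈ Φ := by
    rw [Finset.mem_filter]
    exact ⟨Finset.mem_univ _, fun k => Or.inl (one_smul G (x k))⟩
  obtain ⟨φ, hφ, hmax⟩ := Finset.exists_max_image Φ (fun φ => ∑ k, u (g • φ • x k)) ⟨1, h1⟩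
  have hφ' : ∀ k, φ • x k = x k ∨ φ • x k = inv (x k) := by
    simpa only [Φ, Finset.mem_filter, Finset.mem_univ, true_and] using hφ
  -- the sign of the terms
  have hval : ∀ k, u (g • φ • inv (x k)) = - u (g • φ • x k) := by
    intro k
    rw [hG φ]
    rcases hφ' k with h | h
    · rw [h]
      exact hu g k
    · rw [h, hinv]
      rw [hu g k, neg_neg]
  have hnn : ∀ k, 0 ≤ u (g • φ • x k) := by
    intro k₀
    by_contra hlt
    rw [not_le] at hlt
    obtain ⟨ψ, hψ1, hψ2⟩ := hflip k₀
    have hmem : φ * ψ ∈ Φ := by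
      simp only [Φ, Finset.mem_filter, Finset.mem_univ, true_and]
      intro k
      rw [mul_smul]
      by_cases h : x k = x k₀
      · rw [h, hψ1, hG φ]
        rcases hφ' k₀ with h' | h'
        · right
          rw [h']
        · left
          rw [h', hinv]
      · rw [hψ2 k h]
        exact hφ' k
    have h2 := hmax _ hmem
    beta_reduce at h2
    have h3 : ∑ k, u (g • (φ * ψ) • x k) =
        ∑ k, (u (g • φ • x k) - 2 * if x k = x k₀ then u (g • φ • x k₀) else 0) := by
      refine Finset.sum_congr rfl fun k _ => ?_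
      rw [mul_smul]
      by_cases h : x k = x k₀
      · rw [if_pos h, h, hψ1, hval]
        ring
      · rw [if_neg h, hψ2 k h]
        ring
    rw [h3, Finset.sum_sub_distrib, ← Finset.mul_sum] at h2
    have h4 : ∑ k, (if x k = x k₀ then u (g • φ • x k₀) else 0) < 0 := by
      refine Finset.sum_neg' (fun k _ => ?_) ⟨k₀, Finset.mem_univ _, ?_⟩
      · split_ifs
        · exact hlt.le
        · exact le_rfl
      · rw [if_pos rfl]
        exact hlt
    linarith
  have habs : ∀ k, |u (g • x k)| = u (g • φ • x k) := by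
    intro k
    rcases hφ' k with h | h
    · rw [h]
      apply abs_of_nonneg
      have := hnn k
      rwa [h] at this
    · have h5 := hnn k
      rw [h] at h5 ⊢
      rw [hu g k] at h5 ⊢
      exact abs_of_nonpos (by linarith)
  rw [Finset.sum_congr rfl fun k _ => habs k]
  have h6 := hB (g * φ)
  simp only [mul_smul] at h6
  exact h6

theorem sum_map_exchange {X G : Type*} [Fintype G] (M : Multiset X) (F : G → X → ℝ) :
    (M.map (fun y => ∑ g, F g y)).sum = ∑ g, (M.map (fun y => F g y)).sum := by
  induction M using Multiset.induction_on with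
  | empty => simp
  | cons y M ih =>
    simp only [Multiset.map_cons, Multiset.sum_cons]
    rw [ih, Finset.sum_add_distrib]

end Pool.Agent.W484.AA
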