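import Mathlib
import Pool.Agent.W484.BB.Three2

/-!
# Unit roots and the sum of the deviations
-/

set_option autoImplicit false
set_option linter.unusedSectionVars false

namespace Pool.Agent.W484.AA

open Polynomial Pool.Agent.H925R2 Pool.Agent.H485R3 Pool.Agent.W484.BB

variable (p : ℕ) [Fact p.Prime]

theorem multiset_sum_lt (M : Multiset (PadicAlgCl p)) (h : ∀ x ∈ M, ‖x‖ < 1) : ‖M.sum‖ < 1 := by
  induction M using Multiset.induction_on with
  | empty => simp
  | cons x M ih =>
    rw [Multiset.sum_cons]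
    exact add_lt p (h x (Multiset.mem_cons_self x M))
      (ih fun y hy => h y (Multiset.mem_cons_of_mem hy))

theorem multiset_prod_le (M : Multiset (PadicAlgCl p)) (h : ∀ x ∈ M, ‖x‖ ≤ 1) : ‖M.prod‖ ≤ 1 := by
  induction M using Multiset.induction_on with
  | empty => simp
  | cons x M ih =>
    rw [Multiset.prod_cons, norm_mul]
    exact mul_le_one₀ (h x (Multiset.mem_cons_self x M)) (norm_nonneg _)
      (ih fun y hy => h y (Multiset.mem_cons_of_mem hy))

/-- The number of unit roots. -/
theorem units_card (f : ℤ[X]) (M : Multiset (PadicAlgCl p))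
    (hM : f.map (algebraMap ℤ (PadicAlgCl p)) = (M.map (fun a => X - C a)).prod)
    (hint : ∀ y ∈ M, ‖y‖ ≤ 1) (r : ℕ) (hr : r ≤ M.card)
    (hc : ¬ (p : ℤ) ∣ f.coeff (M.card - r)) :
    r ≤ (M.filter (fun y => 1 ≤ ‖y‖)).card := by
  classical
  by_contra hlt
  rw [not_le] at hlt
  apply hc
  apply dvd_of_norm_lt p
  have h1 : ((f.coeff (M.card - r) : ℤ) : PadicAlgCl p) = (-1) ^ r * M.esymm r := by
    have h2 := congrArg (fun g => g.coeff (M.card - r)) hM
    simp only [coeff_map, eq_intCast] at h2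
    rw [h2, Multiset.prod_X_sub_C_coeff M (Nat.sub_le _ _)]
    congr 2 <;> omega
  rw [h1, norm_mul, norm_pow, norm_neg, norm_one, one_pow, one_mul]
  unfold Multiset.esymm
  apply multiset_sum_lt
  intro x hx
  obtain ⟨t, ht, rfl⟩ := Multiset.mem_map.1 hx
  obtain ⟨ht1, ht2⟩ := Multiset.mem_powersetCard.1 ht
  obtain ⟨y, hy, hy1⟩ : ∃ y ∈ t, ‖y‖ < 1 := by
    by_contra hno
    push Not at hno
    have h3 : t ≤ M.filter (fun y => 1 ≤ ‖y‖) := Multiset.le_filter.2 ⟨ht1, hno⟩
    have h4 := Multiset.card_le_card h3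
    omega
  obtain ⟨t', rfl⟩ := Multiset.exists_cons_of_mem hy
  rw [Multiset.prod_cons]
  exact mul_lt_left p hy1 (multiset_prod_le p _ fun z hz =>
    hint z (Multiset.mem_of_le ht1 (Multiset.mem_cons_of_mem hz)))

/-- The sum of the absolute values of the deviations. -/
theorem sum_dev_ge (a g r : ℕ) (f : ℤ[X]) (M : Multiset (PadicAlgCl p))
    (hM : f.map (algebraMap ℤ (PadicAlgCl p)) = (M.map (fun a => X - C a)).prod)
    (hint : ∀ y ∈ M, ‖y‖ ≤ 1) (hcard : M.card = 2 * g) (hr : r ≤ 2 * g)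
    (hc : ¬ (p : ℤ) ∣ f.coeff (2 * g - r)) (h0 : f.coeff 0 = ((p ^ a : ℕ) : ℤ) ^ g) :
    2 * (r : ℝ) * Real.log ((p : ℝ) ^ a) ≤
      (M.map (fun y => |dev p ((p : ℚ) ^ a) y|)).sum := by
  classical
  have hp0 : (0 : ℝ) < (p : ℝ) ^ a := pow_pos (by exact_mod_cast (Fact.out : p.Prime).pos) _
  have hp1 : (1 : ℝ) ≤ (p : ℝ) ^ a := one_le_pow₀ (by exact_mod_cast (Fact.out : p.Prime).one_le)
  have hlog : 0 ≤ Real.log ((p : ℝ) ^ a) := Real.log_nonneg hp1
  have hu := units_card p f M hM hint r (by omega) (by rw [hcard]; exact hc)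
  -- the product of the roots
  have hprod : ‖M.prod‖ = (((p : ℝ) ^ a)⁻¹) ^ g := by
    have h2 := congrArg (fun g => g.coeff 0) hM
    simp only [coeff_map, eq_intCast] at h2
    have h2' : M.esymm M.card = M.prod := by
      unfold Multiset.esymm
      rw [Multiset.powersetCard_self, Multiset.map_singleton, Multiset.sum_singleton]
    rw [Multiset.prod_X_sub_C_coeff M (Nat.zero_le _), Nat.sub_zero, h2', h0] at h2
    have h3 := congrArg norm h2
    rw [norm_mul, norm_pow, norm_neg, norm_one, one_pow, one_mul] at h3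
    rw [← h3]
    have h4 := norm_pow_cast p a
    push_cast at h4 ⊢
    rw [norm_pow, h4]
  have hM0 : ∀ y ∈ M, y ≠ 0 := by
    rintro y hy rfl
    rw [Multiset.prod_eq_zero hy, norm_zero] at hprod
    have : 0 < (((p : ℝ) ^ a)⁻¹) ^ g := by positivity
    linarith
  -- the sum of the deviations
  have hsum : ∀ N : Multiset (PadicAlgCl p), (∀ y ∈ N, y ≠ 0) →
      (N.map (fun y => dev p ((p : ℚ) ^ a) y)).sum =
        2 * Real.log ‖N.prod‖ + N.card * Real.log ((p : ℝ) ^ a) := by
    intro N
    induction N using Multiset.induction_on with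
    | empty => intro _; simp
    | cons y N ih =>
      intro hN
      have hy := hN y (Multiset.mem_cons_self y N)
      have hN' : ∀ z ∈ N, z ≠ 0 := fun z hz => hN z (Multiset.mem_cons_of_mem hz)
      have hNp : N.prod ≠ 0 := Multiset.prod_ne_zero fun h => hN' 0 h rfl
      rw [Multiset.map_cons, Multiset.sum_cons, ih hN', Multiset.prod_cons, norm_mul,
        Real.log_mul (norm_ne_zero_iff.2 hy) (norm_ne_zero_iff.2 hNp), Multiset.card_cons]
      unfold dev
      rw [norm_pow_cast, Real.log_inv]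
      push_cast
      ring
  have hsum0 : (M.map (fun y => dev p ((p : ℚ) ^ a) y)).sum = 0 := by
    rw [hsum M hM0, hprod, Real.log_pow, Real.log_inv, hcard]
    push_cast
    ring
  have key : ∀ N : Multiset (PadicAlgCl p),
      2 * ((N.filter (fun y => 1 ≤ ‖y‖)).card : ℝ) * Real.log ((p : ℝ) ^ a) ≤
        (N.map (fun y => |dev p ((p : ℚ) ^ a) y|)).sum +
          (N.map (fun y => dev p ((p : ℚ) ^ a) y)).sum := by
    intro N
    induction N using Multiset.induction_on with
    | empty => simp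
    | cons y N ih =>
      rw [Multiset.map_cons, Multiset.sum_cons, Multiset.map_cons, Multiset.sum_cons]
      by_cases h : 1 ≤ ‖y‖
      · rw [Multiset.filter_cons_of_pos (p := fun y => 1 ≤ ‖y‖) _ h, Multiset.card_cons]
        have h1 : Real.log ((p : ℝ) ^ a) ≤ dev p ((p : ℚ) ^ a) y := by
          unfold dev
          rw [norm_pow_cast, Real.log_inv]
          have := Real.log_nonneg h
          linarith
        have h2 := le_abs_self (dev p ((p : ℚ) ^ a) y)
        push_cast
        linarith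
      · rw [Multiset.filter_cons_of_neg (p := fun y => 1 ≤ ‖y‖) _ h]
        have h2 := neg_abs_le (dev p ((p : ℚ) ^ a) y)
        linarith
  have h5 := key M
  rw [hsum0, add_zero] at h5
  refine le_trans ?_ h5
  have h6 : (r : ℝ) ≤ ((M.filter (fun y => 1 ≤ ‖y‖)).card : ℝ) := by exact_mod_cast hu
  exact mul_le_mul_of_nonneg_right (by linarith) hlog

end Pool.Agent.W484.AA
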