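import Mathlib
import Pool.Agent.W484.AA.Direct
import Pool.Agent.W484.BB.Main
import Pool.Agent.W521.Formula

/-!
# The formula of Beilinson and Bloch for almost all Weil polynomials
-/

set_option autoImplicit false
set_option linter.unusedSectionVars false

namespace Pool.Agent.W484.AA

open Polynomial Module Pool.Agent.H925R2 Pool.Agent.H485R3 Pool.Agent.W484.BB Pool.Agent.W521.Frob
  Pool.Agent.W521.Criterion Pool.Agent.W521.Descent Pool.Agent.W521.Count Pool.Agent.W521.Bad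
  Pool.Agent.W521.Density ExteriorAlgebra Pool.Agent.H204R3.CM
  Pool.Agent.H868R3.TwoOdd Pool.Agent.H194R3.Weil

/-- **Products of eigenvectors**, general form. -/
theorem list_mem_prodSpan' {X : Type*} {V : Type*} [AddCommGroup V] [Module ℂ V] (F : V →ₗ[ℂ] V)
    (val : X → ℂ) (Q ρ : ℂ) (hQ : Q ≠ 0)
    (hpair : ∀ k s : ℕ, 0 < s → ∀ ys : List X, ys.length = 2 * k + 3 →
      ((ys.map val).prod * ρ) ^ s = (Q ^ (k + 2)) ^ s →
        ¬ ys.Pairwise (fun y y' => ¬ BB.Good Q (val y) (val y'))) :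
    ∀ (k s : ℕ), 0 < s → ∀ L : List (V × X), L.length = 2 * k + 1 →
      (∀ e ∈ L, F e.1 = val e.2 • e.1) →
      ((L.map (fun e => val e.2)).prod * ρ) ^ s = (Q ^ (k + 1)) ^ s →
      (L.map (fun e => ι ℂ e.1)).prod ∈ prodSpan F Q ρ k := by
  intro k
  induction k with
  | zero =>
    intro s hs L hlen hL hrel
    obtain ⟨e, rfl⟩ := List.length_eq_one_iff.1 hlen
    refine Submodule.subset_span ⟨Fin.elim0, e.1, fun l => l.elim0, ⟨val e.2, s, hs,
      hL e (by simp), ?_⟩, ?_⟩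
    · simpa using hrel
    · simp
  | succ k ih =>
    intro s hs L hlen hL hrel
    have h1 := hpair k s hs (L.map Prod.snd)
      (by rw [List.length_map, hlen]; ring) (by
        rw [List.map_map]
        exact hrel)
    rw [List.pairwise_map] at h1
    obtain ⟨e, e', L', hperm, hgood⟩ := exists_of_not_pairwise _ L h1
    rw [not_not] at hgood
    have heL : e ∈ L := hperm.mem_iff.2 (by simp)
    have heL' : e' ∈ L := hperm.mem_iff.2 (by simp)
    obtain ⟨b, hb⟩ := prod_perm (K := ℂ) hperm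
    rw [hb]
    refine Submodule.smul_mem _ _ ?_
    rw [List.map_cons, List.prod_cons, List.map_cons, List.prod_cons, ← mul_assoc]
    refine mul_mem_prodSpan F _ ρ k _
      (isDivisorClass_of_good F _ _ _ _ _ (hL e heL) (hL e' heL') hgood) _ ?_
    obtain ⟨N, hN, hg⟩ := hgood
    refine ih (s * N) (Nat.mul_pos hs hN) L' ?_ (fun e₁ he₁ => hL e₁ (hperm.mem_iff.2
      (List.mem_cons_of_mem _ (List.mem_cons_of_mem _ he₁)))) ?_
    · have h2 := hperm.length_eq
      rw [List.length_cons, List.length_cons, hlen] at h2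
      omega
    · have h3 : (L.map (fun e => val e.2)).prod =
          val e.2 * val e'.2 * (L'.map (fun e => val e.2)).prod := by
        rw [(hperm.map (fun e => val e.2)).prod_eq, List.map_cons, List.prod_cons,
          List.map_cons, List.prod_cons, mul_assoc]
      rw [h3] at hrel
      have h4 := congrArg (fun z => z ^ N) hrel
      beta_reduce at h4
      have h5 : ((val e.2 * val e'.2 * (L'.map (fun e => val e.2)).prod * ρ) ^ s) ^ N =
          ((val e.2 * val e'.2) ^ N) ^ s *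
            ((L'.map (fun e => val e.2)).prod * ρ) ^ (s * N) := by
        rw [← pow_mul, ← pow_mul, mul_assoc (val e.2 * val e'.2), mul_pow,
          mul_comm N s]
      rw [h5, hg] at h4
      have h6 : ((Q ^ (k + 1 + 1)) ^ s) ^ N = (Q ^ N) ^ s * (Q ^ (k + 1)) ^ (s * N) := by
        ring
      rw [h6] at h4
      exact mul_left_cancel₀ (pow_ne_zero _ (pow_ne_zero _ hQ)) h4

/-- The Weil polynomials whose `p`-rank is larger than a third of the dimension: some coefficient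
of index `2 g - r` with `g < 3 r` is prime to `q`. -/
def largeRankWeilPolys (q g : ℕ) : Set ℤ[X] :=
  {f ∈ weilPolys q g | ∃ r, r ≤ g ∧ g < 3 * r ∧ IsCoprime (f.coeff (2 * g - r)) (q : ℤ)}

/-- `deg` is the degree of the closed points of a curve with Frobenius `G` on `H ^ 1` over the
field with `Q` elements: the points of degree dividing `m` have together
`1 + Q ^ m - trace (G ^ m)` geometric points. -/
def IsPointCount {W : Type} [AddCommGroup W] [Module ℂ W] (Q : ℂ) (G : W →ₗ[ℂ] W) {P : Type}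
    (deg : P → ℕ) : Prop :=
  (∀ v, 0 < deg v) ∧ ∃ hfin : (∀ m, 0 < m → {v | deg v ∣ m}.Finite),
    ∀ m (hm : 0 < m), (∑ v ∈ (hfin m hm).toFinset, (deg v : ℂ)) =
      1 + Q ^ m - LinearMap.trace ℂ W (G ^ m)

/-- The Euler factor of degree `d` at `t`. -/
noncomputable def eulerFactor {V : Type} [AddCommGroup V] [Module ℂ V] (Q : ℂ) (F : V →ₗ[ℂ] V)
    (n d : ℕ) (t : ℂ) : ℂ :=
  (LinearMap.det (1 - (Q ^ (-t)) ^ d • exteriorPower.map n F ^ d))⁻¹

/-- The product of the Euler factors of `⋀ ^ (2 k + 1)` converges for `Re t > k + 1 + 1 / 2` and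
has a meromorphic continuation whose order at `k + 1` is the dimension of `algebraicClasses`. -/
def OrderFormula {V : Type} [AddCommGroup V] [Module ℂ V] {W : Type} [AddCommGroup W] [Module ℂ W]
    (Q : ℂ) (F : V →ₗ[ℂ] V) (G : W →ₗ[ℂ] W) {P : Type} (deg : P → ℕ) (k : ℕ) : Prop :=
  ∃ Λ : ℂ → ℂ, (∀ t, MeromorphicAt Λ t) ∧
    (∀ t : ℂ, (k : ℝ) + 1 + 1 / 2 < t.re →
      HasProd (fun v => eulerFactor Q F (2 * k + 1) (deg v) t) (Λ t)) ∧
    meromorphicOrderAt Λ ((k : ℂ) + 1) =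
      ((finrank ℂ (algebraicClasses F G Q k) : ℤ) : WithTop ℤ)

/-- `W` is spanned by eigenvectors of `G` with integral eigenvalues, `‖ρ‖ ^ 2 = Q`. -/
def WeilEigen {W : Type} [AddCommGroup W] [Module ℂ W] (Q : ℝ) (G : W →ₗ[ℂ] W) : Prop :=
  Submodule.span ℂ {w : W | ∃ ρ : ℂ, (IsIntegral ℤ ρ ∧ ‖ρ‖ ^ 2 = Q) ∧ G w = ρ • w} = ⊤

/-- **The formula of Beilinson and Bloch** for a family `f` of Weil polynomials. -/
def BeilinsonBlochFormula {I : Type} (q : ℕ) (f : I → ℤ[X]) : Prop :=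
  ∀ (V : Type) [AddCommGroup V] [Module ℂ V] [FiniteDimensional ℂ V] (F : V →ₗ[ℂ] V),
    Submodule.span ℂ {v : V | ∃ i, ∃ z : ℂ, aeval z (f i) = 0 ∧ F v = z • v} = ⊤ →
    ∀ s : ℕ, 0 < s →
    ∀ (W : Type) [AddCommGroup W] [Module ℂ W] [FiniteDimensional ℂ W] (G : W →ₗ[ℂ] W),
    WeilEigen ((q : ℝ) ^ s) G →
    ∀ (P : Type) (deg : P → ℕ), IsPointCount ((q : ℂ) ^ s) G deg →
    ∀ k : ℕ, OrderFormula ((q : ℂ) ^ s) (F ^ s) G deg k

theorem formula_of_good {I : Type} [Fintype I] [DecidableEq I] (g : I → ℕ) (hg : ∀ i, 0 < g i)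
    {q : ℕ} (hqpp : IsPrimePow q)
    (x : (Σ i, Fin (g i)) → ℤ) (hx : Pool.Agent.W521.Bad.Good g q x)
    (hw : ∀ i, weil q (polys g x i) ∈ largeRankWeilPolys q (g i)) :
    BeilinsonBlochFormula q (fun i => weil q (polys g x i)) := by
  classical
  intro V _ _ _ F hF s hs W _ _ _ G hG P deg ⟨hdeg, hfin, hcount⟩ k
  obtain ⟨hpat, hirr, -⟩ := hx
  rw [isPrimePow_nat_iff] at hqpp
  obtain ⟨p, a, hp, ha, hqp⟩ := hqpp
  have : Fact p.Prime := ⟨hp⟩
  have hq0 : q ≠ 0 := by rw [← hqp]; exact pow_ne_zero _ hp.ne_zero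
  have hqpos : (0 : ℝ) < q := by exact_mod_cast Nat.pos_of_ne_zero hq0
  have hm : ∀ i, (polys g x i).Monic := fun i => mkPoly_monic (g i) _
  choose hw1 r hr1 hr2 hr3 using hw
  have hcast : ((p : ℂ) ^ (a * s)) = (q : ℂ) ^ s := by
    rw [← hqp, pow_mul]
    push_cast
    rfl
  have hcastR : ((p : ℝ) ^ (a * s)) = (q : ℝ) ^ s := by
    rw [← hqp, pow_mul]
    push_cast
    rfl
  let X := {z : ℂ // ∃ i, aeval z (weil q (polys g x i)) = 0}
  let val : X → ℂ := fun z => (z : ℂ) ^ s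
  have hX : ∀ z : X, ‖(z : ℂ)‖ ^ 2 = q := by
    rintro ⟨z, i, hi⟩
    exact (hw1 i).2.2.2 z hi
  have hspan : Submodule.span ℂ {v : V | ∃ y : X, (F ^ s) v = val y • v} = ⊤ := by
    rw [eq_top_iff, ← hF]
    refine Submodule.span_mono ?_
    rintro v ⟨i, z, hz, hv⟩
    exact ⟨⟨z, i, hz⟩, pow_apply_eigen F v z hv s⟩
  have h1 := main p (a * s) (Nat.mul_pos ha hs) (F ^ s) (by
    rw [eq_top_iff, ← hspan]
    refine Submodule.span_mono ?_
    rintro v ⟨y, hv⟩
    refine ⟨val y, ?_, hv⟩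
    change ‖(y : ℂ) ^ s‖ ^ 2 = _
    rw [hcastR, norm_pow, ← pow_mul, mul_comm, pow_mul, hX]) G (by
    rw [hcastR]
    exact hG) deg hdeg hfin (by
    intro m hm
    rw [hcast]
    exact hcount m hm) k ?_
  · rw [hcast] at h1
    exact h1
  · intro ρ hρ hρn y hy hFy
    rw [hcast] at hFy ⊢
    rw [hcastR] at hρn
    have hQ : (q : ℂ) ^ s ≠ 0 := pow_ne_zero _ (by exact_mod_cast hq0)
    have hρ0 : ρ ≠ 0 := by
      rintro rfl
      rw [norm_zero] at hρn
      norm_num at hρn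
      have : (0 : ℝ) < (q : ℝ) ^ s := by positivity
      linarith
    have hpair : ∀ k N : ℕ, 0 < N → ∀ ys : List X, ys.length = 2 * k + 3 →
        ((ys.map val).prod * ρ) ^ N = (((q : ℂ) ^ s) ^ (k + 2)) ^ N →
          ¬ ys.Pairwise (fun y y' => ¬ BB.Good ((q : ℂ) ^ s) (val y) (val y')) := by
      intro k N hN ys hlen hrel hpw
      obtain ⟨n, hn⟩ : ∃ n, n = ys.length := ⟨_, rfl⟩
      have hcc : ∀ i, ¬ (p : ℤ) ∣ (weil q (polys g x i)).coeff (2 * g i - r i) := by
        intro i hdvd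
        have h2 : (p : ℤ) ∣ (q : ℤ) := by
          rw [← hqp]
          push_cast
          exact dvd_pow_self _ ha.ne'
        have h3 := (hr3 i).isUnit_of_dvd' hdvd h2
        have h4 := Int.isUnit_iff.1 h3
        have h5 := hp.one_lt
        omega
      refine odd_relation p a ha hqp.symm hm hirr hpat g r hg (fun i => (hw1 i).2.1)
        (fun i => by have := hr1 i; omega) hcc (fun i => (hw1 i).2.2.1) hr2 s hs ρ hρ hρn k N hN
        (fun l => ((ys.get (Fin.cast hlen.symm l) : X) : ℂ))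
        (fun l => (ys.get (Fin.cast hlen.symm l)).2) ?_ ?_
      · rw [← hrel]
        congr 2
        have h6 : ∏ l : Fin (2 * k + 3), ((ys.get (Fin.cast hlen.symm l) : X) : ℂ) =
            (ys.map (fun y : X => (y : ℂ))).prod := by
          have h61 : ∏ l : Fin (2 * k + 3), ((ys.get (Fin.cast hlen.symm l) : X) : ℂ) =
              ∏ l : Fin ys.length, ((ys.get l : X) : ℂ) :=
            Fintype.prod_equiv (finCongr hlen.symm) _ _ fun l => rfl
          rw [h61, ← List.prod_ofFn]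
          congr 1
          apply List.ext_getElem
          · simp
          · intro i h1 h2
            simp
        rw [h6]
        have h7 : ∀ ys : List X, (ys.map (fun y : X => (y : ℂ))).prod ^ s = (ys.map val).prod := by
          intro ys
          induction ys with
          | nil => simp
          | cons y ys ih =>
            rw [List.map_cons, List.prod_cons, mul_pow, ih, List.map_cons, List.prod_cons]
        exact h7 ys
      · have hbad : ∀ k' l' : Fin ys.length, k' < l' →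
            ((ys.get k' : X) : ℂ) * ((ys.get l' : X) : ℂ) ≠ q := by
          intro k' l' hkl h8
          refine (List.pairwise_iff_get.1 hpw) k' l' hkl ⟨1, one_pos, ?_⟩
          rw [pow_one, pow_one]
          change ((ys.get k' : X) : ℂ) ^ s * ((ys.get l' : X) : ℂ) ^ s = _
          rw [← mul_pow, h8]
        intro k' l' hkl
        rcases lt_or_gt_of_ne hkl with h | h
        · exact hbad _ _ h
        · intro h8
          rw [mul_comm] at h8
          exact hbad _ _ h h8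
    refine mem_of_lists_sub (F ^ s) val hspan (2 * k + 1) 1 (((q : ℂ) ^ s) ^ (k + 1) / ρ) _ ?_ y hy
      (by rw [pow_one]; exact hFy)
    intro L hlen hL hLc
    refine list_mem_prodSpan' (F ^ s) val ((q : ℂ) ^ s) ρ hQ hpair k 1 one_pos L hlen hL ?_
    rw [pow_one] at hLc
    rw [pow_one, pow_one, hLc, div_mul_cancel₀ _ hρ0]

/-- **The count.** -/
theorem formula_count_between {I : Type} [Fintype I] (g : I → ℕ) (hg : ∀ i, 0 < g i) :
    ∃ C : ℝ, ∀ q : ℕ, IsPrimePow q → ∀ S : I → Set ℤ[X],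
      (∀ i, ordinaryWeilPolys q (g i) ⊆ S i ∧ S i ⊆ largeRankWeilPolys q (g i)) →
      (∀ i, (S i).Finite ∧ (S i).Nonempty) ∧
      ({f : I → ℤ[X] | (∀ i, f i ∈ S i) ∧ ¬ BeilinsonBlochFormula q f}.ncard : ℝ) ≤
        C * (Real.log q * (q : ℝ) ^ (-(1 / 6) : ℝ)) * ∏ i, ((S i).ncard : ℝ) := by
  classical
  obtain ⟨C, hC, h⟩ := Pool.Agent.W521.Total.main_count g hg
  refine ⟨C, fun q hq S hS => ?_⟩
  have hsub : ∀ i, S i ⊆ weilPolys q (g i) := fun i => (hS i).2.trans fun f hf => hf.1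
  have hfinS : ∀ i, (S i).Finite := fun i => (finite_weilPolys hq.pos.ne').subset (hsub i)
  refine ⟨fun i => ⟨hfinS i, ⟨_, (hS i).1 (ordinary_nonempty hq.pos (g i))⟩⟩, ?_⟩
  have h1 := h q hq (fun f => (∀ i, f i ∈ largeRankWeilPolys q (g i)) → BeilinsonBlochFormula q f)
    (fun x hx hw => formula_of_good g hg hq x hx hw)
  have hfin : {f : I → ℤ[X] | (∀ i, f i ∈ weilPolys q (g i)) ∧
      ¬ ((∀ i, f i ∈ largeRankWeilPolys q (g i)) → BeilinsonBlochFormula q f)}.Finite :=
    (Pool.Agent.W521.Total.finite_tuples g hq.pos.ne').subset fun f hf => hf.1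
  have h2 : {f : I → ℤ[X] | (∀ i, f i ∈ S i) ∧ ¬ BeilinsonBlochFormula q f}.ncard ≤
      {f : I → ℤ[X] | (∀ i, f i ∈ weilPolys q (g i)) ∧
        ¬ ((∀ i, f i ∈ largeRankWeilPolys q (g i)) → BeilinsonBlochFormula q f)}.ncard :=
    Set.ncard_le_ncard (fun f hf => ⟨fun i => hsub i (hf.1 i), fun h3 => hf.2 (h3 fun i =>
      (hS i).2 (hf.1 i))⟩) hfin
  have hr : 0 ≤ Real.log q * (q : ℝ) ^ (-(1 / 6) : ℝ) := rate_nonneg q
  calc ({f : I → ℤ[X] | (∀ i, f i ∈ S i) ∧ ¬ BeilinsonBlochFormula q f}.ncard : ℝ) ≤ _ := by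
        exact_mod_cast h2
    _ ≤ C * (Real.log q * (q : ℝ) ^ (-(1 / 6) : ℝ)) *
          ∏ i, ((ordinaryWeilPolys q (g i)).ncard : ℝ) := h1
    _ ≤ C * (Real.log q * (q : ℝ) ^ (-(1 / 6) : ℝ)) * ∏ i, ((S i).ncard : ℝ) := by
        refine mul_le_mul_of_nonneg_left ?_ (mul_nonneg hC.le hr)
        refine Finset.prod_le_prod (fun i _ => Nat.cast_nonneg _) fun i _ => ?_
        exact_mod_cast Set.ncard_le_ncard (hS i).1 (hfinS i)

end Pool.Agent.W484.AA
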