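import Mathlib

/-!
# Lower bounds for sums over a group with flips
-/

set_option autoImplicit false
set_option linter.unusedSectionVars false

namespace Pool.Agent.W484.AA

/-- The sum of the absolute values of the sums is at least the sum of the absolute values of one
term, if this term can be flipped. -/
theorem sum_abs_ge {X G : Type*} [Group G] [Fintype G] [MulAction G X] (inv : X → X) (u : X → ℝ)
    {n : ℕ} (x : Fin n → X) (k₀ : Fin n)
    (hu : ∀ g : G, u (g • inv (x k₀)) = -u (g • x k₀)) (ψ : G)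
    (hψ : ψ • x k₀ = inv (x k₀)) (hψ' : ∀ l, x l ≠ x k₀ → ψ • x l = x l) :
    ∑ g : G, |u (g • x k₀)| ≤ ∑ g : G, |∑ k, u (g • x k)| := by
  classical
  let m : ℕ := (Finset.univ.filter (fun k => x k = x k₀)).card
  have hm : 1 ≤ m := Finset.card_pos.2 ⟨k₀, by simp⟩
  let B : G → ℝ := fun g => ∑ k with x k ≠ x k₀, u (g • x k)
  have hS : ∀ g : G, ∑ k, u (g • x k) = m * u (g • x k₀) + B g := by
    intro g
    rw [← Finset.sum_filter_add_sum_filter_not Finset.univ (fun k => x k = x k₀)]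
    congr 1
    rw [Finset.sum_congr rfl (g := fun _ => u (g • x k₀)) (by
      intro k hk
      rw [(Finset.mem_filter.1 hk).2])]
    rw [Finset.sum_const, nsmul_eq_mul]
  have hS' : ∀ g : G, ∑ k, u ((g * ψ) • x k) = -(m * u (g • x k₀)) + B g := by
    intro g
    rw [hS, mul_smul, hψ, hu]
    have : B (g * ψ) = B g := by
      refine Finset.sum_congr rfl fun k hk => ?_
      rw [mul_smul, hψ' k (Finset.mem_filter.1 hk).2]
    rw [this]
    ring
  have h1 : ∑ g : G, |∑ k, u ((g * ψ) • x k)| = ∑ g : G, |∑ k, u (g • x k)| :=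
    Fintype.sum_equiv (Equiv.mulRight ψ) _ _ fun g => rfl
  have h2 : ∀ g : G, 2 * |u (g • x k₀)| ≤
      |∑ k, u (g • x k)| + |∑ k, u ((g * ψ) • x k)| := by
    intro g
    rw [hS, hS']
    have h3 : |(m * u (g • x k₀) + B g) - (-(m * u (g • x k₀)) + B g)| ≤
        |m * u (g • x k₀) + B g| + |-(m * u (g • x k₀)) + B g| := abs_sub _ _
    have h4 : |(m * u (g • x k₀) + B g) - (-(m * u (g • x k₀)) + B g)| =
        2 * m * |u (g • x k₀)| := by
      have : (m * u (g • x k₀) + B g) - (-(m * u (g • x k₀)) + B g) =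
          (2 * m : ℝ) * u (g • x k₀) := by ring
      rw [this, abs_mul, abs_of_nonneg (by positivity : (0 : ℝ) ≤ 2 * m)]
    rw [h4] at h3
    have h5 : (1 : ℝ) ≤ m := by exact_mod_cast hm
    have h6 : 2 * |u (g • x k₀)| ≤ 2 * m * |u (g • x k₀)| := by
      have := abs_nonneg (u (g • x k₀))
      nlinarith
    linarith
  have h3 := Finset.sum_le_sum fun (g : G) (_ : g ∈ Finset.univ) => h2 g
  rw [Finset.sum_add_distrib, h1, ← Finset.mul_sum] at h3
  linarith

/-- The correlation with one term. -/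
theorem corr_ne_zero {X G : Type*} [Group G] [Fintype G] [MulAction G X] (inv : X → X) (u : X → ℝ)
    {n : ℕ} (x : Fin n → X) (k₀ : Fin n)
    (hu : ∀ g : G, u (g • inv (x k₀)) = -u (g • x k₀)) (ψ : G)
    (hψ : ψ • x k₀ = inv (x k₀)) (hψ' : ∀ l, x l ≠ x k₀ → ψ • x l = x l)
    (hne : ∃ g : G, u (g • x k₀) ≠ 0) :
    ∑ g : G, (∑ k, u (g • x k)) * u (g • x k₀) ≠ 0 := by
  classical
  have h0 : ∀ k, x k ≠ x k₀ → ∑ g : G, u (g • x k) * u (g • x k₀) = 0 := by
    intro k hk
    have h1 : ∑ g : G, u ((g * ψ) • x k) * u ((g * ψ) • x k₀) =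
        ∑ g : G, u (g • x k) * u (g • x k₀) :=
      Fintype.sum_equiv (Equiv.mulRight ψ) _ _ fun g => rfl
    have h2 : ∀ g : G, u ((g * ψ) • x k) * u ((g * ψ) • x k₀) =
        -(u (g • x k) * u (g • x k₀)) := by
      intro g
      rw [mul_smul, mul_smul, hψ, hψ' k hk, hu]
      ring
    rw [Finset.sum_congr rfl fun g _ => h2 g, Finset.sum_neg_distrib] at h1
    linarith
  have h1 : ∑ g : G, (∑ k, u (g • x k)) * u (g • x k₀) =
      ∑ k, ∑ g : G, u (g • x k) * u (g • x k₀) := by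
    rw [Finset.sum_comm]
    exact Finset.sum_congr rfl fun g _ => Finset.sum_mul _ _ _
  have hpos : 0 < ∑ g : G, u (g • x k₀) * u (g • x k₀) := by
    obtain ⟨g, hg⟩ := hne
    exact Finset.sum_pos' (fun _ _ => mul_self_nonneg _) ⟨g, Finset.mem_univ _, mul_self_pos.2 hg⟩
  rw [h1]
  refine ne_of_gt (Finset.sum_pos' (fun k _ => ?_) ⟨k₀, Finset.mem_univ _, hpos⟩)
  by_cases hk : x k = x k₀
  · rw [hk]
    exact hpos.le
  · rw [h0 k hk]

end Pool.Agent.W484.AA
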