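import Mathlib
import Pool.Agent.W484.AA.Direct
import Pool.Agent.W484.AA.Corr
import Pool.Agent.W484.BB.Orbit
import Pool.Agent.W484.AS.Moment

/-!
# Relations between the roots of Weil polynomials with flips and algebraic numbers of small width
-/

set_option autoImplicit false
set_option linter.unusedSectionVars false

namespace Pool.Agent.W484.AA

open Polynomial Pool.Agent.H925R2 Pool.Agent.H485R3 Pool.Agent.W484.BB Pool.Agent.W521.Frob
  Pool.Agent.W521.Criterion

variable {I : Type*} {q : ℕ} {h : I → ℤ[X]} (hq : q ≠ 0) (hm : ∀ i, (h i).Monic)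
  {L : Type} [Field L] [NumberField L] [IsGalois ℚ L] (j : L →+* ℂ)
  (hL : ∀ i, ∀ z : ℂ, aeval z (weil q (h i)) = 0 → ∃ x : L, j x = z)
  (p : ℕ) [Fact p.Prime] (a : ℕ) (hqp : q = p ^ a) (e : L →ₐ[ℚ] PadicAlgCl p)

include hq hm hL in
/-- The number of distinct roots. -/
theorem two_mul_le_card [DecidableEq L] (i : I)
    (hirr : Irreducible ((h i).map (Int.castRingHom ℚ)))
    (hfl : ∀ α : L, aeval α (weil q (h i)) = 0 → α ≠ q / α) :
    2 * (h i).natDegree ≤ ((weil q (h i)).map (algebraMap ℤ L)).roots.toFinset.card := by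
  have hsplit := splits_h hq hm L j hL i
  have hmL : ((h i).map (algebraMap ℤ L)).Monic := (hm i).map _
  have hsep : ((h i).map (algebraMap ℤ L)).Separable := by
    have h1 := hirr.separable
    have h2 := h1.map (f := algebraMap ℚ L)
    rwa [Polynomial.map_map, RingHom.ext_int ((algebraMap ℚ L).comp (Int.castRingHom ℚ))
      (algebraMap ℤ L)] at h2
  set Θ : Finset L := ((h i).map (algebraMap ℤ L)).roots.toFinset with hΘ
  have hΘcard : Θ.card = (h i).natDegree := by
    rw [hΘ, Multiset.toFinset_card_of_nodup (nodup_roots hsep), ← hsplit.natDegree_eq_card_roots,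
      (hm i).natDegree_map]
  have hΘroot : ∀ θ ∈ Θ, aeval θ (h i) = 0 := by
    intro θ hθ
    have h1 := (mem_roots'.1 (Multiset.mem_toFinset.1 hθ)).2
    rw [IsRoot.def, eval_map] at h1
    exact h1
  have hex : ∀ θ : Θ, ∃ α : L, α ^ 2 + q = θ * α :=
    fun θ => quad_L hq hm L j hL i θ (hΘroot θ θ.2)
  choose α hα using hex
  have hroot : ∀ θ : Θ, aeval (α θ) (weil q (h i)) = 0 := by
    intro θ
    rw [aeval_weil q (h i) (α θ) θ (hα θ), hΘroot θ θ.2, mul_zero]
  have hα0 : ∀ θ : Θ, α θ ≠ 0 := fun θ => root_ne_zero hq (hm i) (hroot θ)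
  have hqL : (q : L) ≠ 0 := by exact_mod_cast hq
  let f : Θ × Bool → L := fun z => if z.2 then α z.1 else q / α z.1
  have hf : ∀ z : Θ × Bool, f z ≠ 0 ∧ f z + q / f z = z.1 := by
    rintro ⟨θ, b⟩
    have h1 : (α θ) + q / α θ = θ := by
      have := hα0 θ
      have h2 := hα θ
      field_simp
      linear_combination h2
    cases b
    · simp only [f, Bool.false_eq_true, if_false]
      refine ⟨div_ne_zero hqL (hα0 θ), ?_⟩
      rw [div_div_cancel₀ hqL, add_comm]
      exact h1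
    · simp only [f, if_true]
      exact ⟨hα0 θ, h1⟩
  have hinj : Function.Injective f := by
    rintro ⟨θ, b⟩ ⟨θ', b'⟩ hff
    have h1 : θ = θ' := by
      apply Subtype.ext
      have h2 := (hf (θ, b)).2
      rw [hff, (hf (θ', b')).2] at h2
      exact h2.symm
    subst h1
    have h3 := hfl (α θ) (hroot θ)
    cases b <;> cases b'
    · rfl
    · simp only [f, Bool.false_eq_true, if_false, if_true] at hff
      exact absurd hff.symm h3
    · simp only [f, Bool.false_eq_true, if_false, if_true] at hff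
      exact absurd hff h3
    · rfl
  have hmaps : ∀ z ∈ (Finset.univ : Finset (Θ × Bool)),
      f z ∈ ((weil q (h i)).map (algebraMap ℤ L)).roots.toFinset := by
    intro z _
    rw [Multiset.mem_toFinset, mem_roots ((weil_monic q (hm i)).map _).ne_zero, IsRoot.def, eval_map]
    change aeval (f z) (weil q (h i)) = 0
    rw [root_iff hq (hm i)]
    refine ⟨(hf z).1, ?_⟩
    rw [(hf z).2]
    exact hΘroot _ z.1.2
  have h4 := Finset.card_le_card_of_injOn f hmaps hinj.injOn
  rw [Finset.card_univ, Fintype.card_prod, Fintype.card_coe, Fintype.card_bool, hΘcard] at h4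
  omega

include hq hm hL hqp in
/-- **The degree of a number which is related to the roots.** -/
theorem deg_ge (hirr : ∀ i, Irreducible ((h i).map (Int.castRingHom ℚ)))
    (hfl : ∀ i, ∀ α : L, aeval α (weil q (h i)) = 0 → Flippable q h α)
    {n : ℕ} (x : Fin n → L) (i : Fin n → I) (hx : ∀ k, aeval (x k) (weil q (h (i k))) = 0)
    (hno : ∀ k l, x l ≠ q / x k) (k₀ : Fin n) (hne : ∃ σ : L ≃ₐ[ℚ] L, dv p a e (σ (x k₀)) ≠ 0)
    (M : ℚ) (hM : M ≠ 0) (ρ : L) (hρ0 : ρ ≠ 0)
    (hconj : ∀ y : L, aeval y (minpoly ℚ ρ) = 0 → aeval ((M : L) / y) (minpoly ℚ ρ) = 0)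
    (κ : ℝ) (hκ : κ ≠ 0)
    (hrel : ∀ σ : L ≃ₐ[ℚ] L, dev p M (e (σ ρ)) = κ * ∑ k, dv p a e (σ (x k))) :
    2 * (h (i k₀)).natDegree ≤ (minpoly ℚ ρ).natDegree := by
  classical
  have hqL : (q : L) ≠ 0 := by exact_mod_cast hq
  have hML : (M : L) ≠ 0 := by exact_mod_cast hM
  have hx0 : ∀ k, x k ≠ 0 := fun k => root_ne_zero hq (hm (i k)) (hx k)
  have hint : IsIntegral ℚ ρ := Algebra.IsIntegral.isIntegral ρ
  have hm0 : minpoly ℚ ρ ≠ 0 := minpoly.ne_zero hint
  have hsplit : ((minpoly ℚ ρ).map (algebraMap ℚ L)).Splits := Normal.splits inferInstance ρ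
  let R : Finset L := ((minpoly ℚ ρ).aroots L).toFinset
  have hR : ∀ z, z ∈ R ↔ aeval z (minpoly ℚ ρ) = 0 := by
    intro z
    rw [Multiset.mem_toFinset, Polynomial.mem_aroots]
    exact ⟨fun h => h.2, fun h => ⟨hm0, h⟩⟩
  have hRg : ∀ z, z ∈ R → ∃ g : L ≃ₐ[ℚ] L, g ρ = z := by
    intro z hz
    have h1 : IsConjRoot ℚ ρ z := isConjRoot_of_aeval_eq_zero hint ((hR z).1 hz)
    rw [isConjRoot_iff_exists_algEquiv] at h1
    obtain ⟨σ, hσ⟩ := h1
    refine ⟨σ.symm, ?_⟩
    rw [← hσ, AlgEquiv.symm_apply_apply]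
  have hRG : ∀ (g : L ≃ₐ[ℚ] L), ∀ y ∈ R, g y ∈ R := by
    intro g y hy
    rw [hR] at hy ⊢
    have h5 := congrArg g hy
    rw [map_zero] at h5
    rw [← h5]
    exact (Polynomial.aeval_algHom_apply (g : L →ₐ[ℚ] L) y _)
  have hρR : ρ ∈ R := (hR ρ).2 (minpoly.aeval ℚ ρ)
  have hR0 : ∀ y ∈ R, y ≠ 0 := by
    intro y hy
    obtain ⟨g, rfl⟩ := hRg y hy
    rw [Ne, map_eq_zero]
    exact hρ0
  have hnd : ((minpoly ℚ ρ).aroots L).Nodup :=
    Polynomial.nodup_aroots_iff_of_splits hm0 hsplit |>.2 (minpoly.irreducible hint).separable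
  have hcard : R.card = (minpoly ℚ ρ).natDegree := by
    rw [Multiset.toFinset_card_of_nodup hnd, Polynomial.aroots_def, ← hsplit.natDegree_eq_card_roots,
      Polynomial.natDegree_map]
  let u : L → ℝ := fun y => if y = 0 then 0 else dv p a e y
  let w : L → ℝ := fun y => if y = 0 then 0 else dev p M (e y)
  have hu0 : ∀ y, y ≠ 0 → u y = dv p a e y := fun y hy => if_neg hy
  have hw0 : ∀ y, y ≠ 0 → w y = dev p M (e y) := fun y hy => if_neg hy
  have hu : ∀ y, u (q / y) = - u y := by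
    intro y
    by_cases hy : y = 0
    · rw [hy, div_zero]
      simp [u]
    · rw [hu0 _ (div_ne_zero hqL hy), hu0 _ hy]
      exact dv_inv p a hqp e y hy
  have hw : ∀ y, w ((M : L) / y) = - w y := by
    intro y
    by_cases hy : y = 0
    · rw [hy, div_zero]
      simp [w]
    · rw [hw0 _ (div_ne_zero hML hy), hw0 _ hy, map_div₀, map_ratCast]
      exact dev_inv p hM (e y) (by rw [Ne, map_eq_zero]; exact hy)
  let O : L → L → ℝ := fun y z => ∑ σ : L ≃ₐ[ℚ] L, w (σ y) * u (σ z)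
  let X₀ : Finset L := ((weil q (h (i k₀))).map (algebraMap ℤ L)).roots.toFinset
  have hX₀ : ∀ z, z ∈ X₀ ↔ aeval z (weil q (h (i k₀))) = 0 := by
    intro z
    rw [Multiset.mem_toFinset, mem_roots ((weil_monic q (hm (i k₀))).map _).ne_zero, IsRoot.def,
      eval_map]
    rfl
  have hcorr : O ρ (x k₀) ≠ 0 := by
    obtain ⟨ψ, h1, -, h3⟩ := hfl (i k₀) (x k₀) (hx k₀)
    have h4 := corr_ne_zero (X := L) (G := L ≃ₐ[ℚ] L) (fun y => (q : L) / y) u x k₀ (by
        intro g
        change u (g ((q : L) / x k₀)) = - u (g (x k₀))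
        rw [map_div₀, map_natCast, hu]) ψ h1 (fun l hl => h3 (i l) (x l) (hx l) hl (hno k₀ l)) (by
        obtain ⟨σ, hσ⟩ := hne
        refine ⟨σ, ?_⟩
        change u (σ (x k₀)) ≠ 0
        rw [hu0 _ (by rw [Ne, map_eq_zero]; exact hx0 k₀)]
        exact hσ)
    have h5 : O ρ (x k₀) = κ * ∑ σ : L ≃ₐ[ℚ] L, (∑ k, u (σ • x k)) * u (σ • x k₀) := by
      rw [Finset.mul_sum]
      refine Finset.sum_congr rfl fun σ _ => ?_
      rw [hw0 _ (by rw [Ne, map_eq_zero]; exact hρ0), hrel σ, mul_assoc]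
      congr 2
      exact Finset.sum_congr rfl fun k _ => (hu0 _ (by
        rw [Ne, map_eq_zero]; exact hx0 k)).symm
    rw [h5]
    exact mul_ne_zero hκ h4
  have hOG : ∀ (g : L ≃ₐ[ℚ] L) y z, O (g y) (g z) = O y z := by
    intro g y z
    exact Fintype.sum_equiv (Equiv.mulRight g) _ _ fun σ => rfl
  have hO1 : ∀ y z, O y (q / z) = - O y z := by
    intro y z
    simp only [O, ← Finset.sum_neg_distrib]
    refine Finset.sum_congr rfl fun σ _ => ?_
    rw [map_div₀, map_natCast, hu]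
    ring
  have hO3 : ∀ y z, O ((M : L) / y) z = - O y z := by
    intro y z
    simp only [O, ← Finset.sum_neg_distrib]
    refine Finset.sum_congr rfl fun σ _ => ?_
    rw [map_div₀, map_ratCast, hw]
    ring
  have key := orthogonal_core (X := L) (Y := L) (G := L ≃ₐ[ℚ] L) (fun y => (q : L) / y)
    (fun y => (M : L) / y) O R X₀ hO1 hOG (fun y _ => hO3 y) hRG (by
      intro y hy
      refine ⟨(hR _).2 (hconj y ((hR y).1 hy)), div_div_cancel₀ hML⟩) (by
      intro z hz
      rw [hX₀] at hz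
      obtain ⟨ψ, h1, h2, h3⟩ := hfl _ z hz
      exact ⟨(hX₀ _).2 (root_conj hq (hm _) hz), div_div_cancel₀ hqL, Ne.symm h2⟩) (by
      intro y hy z hz h1 h2
      rw [hX₀] at hy hz
      obtain ⟨ψ, h3, -, h4⟩ := hfl _ z hz
      refine ⟨ψ, Or.inl ⟨?_, h3⟩⟩
      refine h4 _ y hy (Ne.symm h1) ?_
      intro h5
      apply h2
      rw [h5, div_div_cancel₀ hqL]) (by
      intro z hz
      rw [hX₀] at hz
      obtain ⟨τ, hτ⟩ := exists_tau hq hm L j hL (i k₀) (hirr _) (x k₀) z (hx k₀) hz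
      refine ⟨τ ρ, hRG τ ρ hρR, ?_⟩
      rcases hτ with h1 | h1
      · rw [← h1, hOG]
        exact hcorr
      · have h2 : z = q / τ (x k₀) := by rw [h1, div_div_cancel₀ hqL]
        rw [h2, hO1, hOG]
        exact neg_ne_zero.2 hcorr)
  rw [hcard] at key
  refine le_trans ?_ key
  refine two_mul_le_card hq hm j hL (i k₀) (hirr _) ?_
  intro α hα
  obtain ⟨_, _, h2, _⟩ := hfl _ α hα
  exact h2

end Pool.Agent.W484.AA
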