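import Mathlib
import Pool.Agent.W484.AA.Width
import Pool.Agent.W484.AS.KThree
import Pool.Agent.W484.BB.Three5

/-!
# No relations with algebraic numbers of small width
-/

set_option autoImplicit false
set_option linter.unusedSectionVars false

namespace Pool.Agent.W484.AA

open Polynomial Pool.Agent.H925R2 Pool.Agent.H485R3 Pool.Agent.W484.BB Pool.Agent.W521.Frob
  Pool.Agent.W521.Criterion

/-- The sum of the absolute values of `2 λ - w`, `λ` the slopes of `χ` (roots with multiplicities;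
the characteristic polynomial of the Frobenius of the field with `Q` elements in degree `w`). -/
noncomputable def newtonWidth (p : ℕ) [Fact p.Prime] (Q : ℝ) (w : ℕ) (χ : ℤ[X]) : ℝ :=
  ((χ.map (Int.castRingHom (PadicAlgCl p))).roots.map
    (fun y => |2 * (- Real.logb Q ‖y‖) - w|)).sum

theorem newtonWidth_nonneg (p : ℕ) [Fact p.Prime] (Q : ℝ) (w : ℕ) (χ : ℤ[X]) :
    0 ≤ newtonWidth p Q w χ := by
  refine Multiset.sum_nonneg ?_
  intro x hx
  obtain ⟨y, -, rfl⟩ := Multiset.mem_map.1 hx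
  exact abs_nonneg _

theorem abs_dev_eq_width (p : ℕ) [Fact p.Prime] (a : ℕ) (ha : 0 < a) (s w : ℕ) (hs : 0 < s)
    (y : PadicAlgCl p) : |dev p (((p : ℚ) ^ a) ^ (s * w)) y| =
      s * Real.log ((p : ℝ) ^ a) * |2 * (- Real.logb (((p : ℝ) ^ a) ^ s) ‖y‖) - w| := by
  have hp1 : (1 : ℝ) < (p : ℝ) ^ a :=
    one_lt_pow₀ (by exact_mod_cast (Fact.out : p.Prime).one_lt) ha.ne'
  have hlog : 0 < Real.log ((p : ℝ) ^ a) := Real.log_pos hp1
  have hs0 : (0 : ℝ) < s := by exact_mod_cast hs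
  have h5 : Real.log ‖((((p : ℚ) ^ a) ^ (s * w) : ℚ) : PadicAlgCl p)‖ =
      - ((s * w : ℕ) : ℝ) * Real.log ((p : ℝ) ^ a) := by
    have h6 : ((((p : ℚ) ^ a) ^ (s * w) : ℚ) : PadicAlgCl p) =
        ((((p : ℚ) ^ a : ℚ)) : PadicAlgCl p) ^ (s * w) := by push_cast; rfl
    rw [h6, norm_pow, norm_pow_cast, Real.log_pow, Real.log_inv]
    ring
  have h7 : Real.log ‖y‖ = Real.logb (((p : ℝ) ^ a) ^ s) ‖y‖ * (s * Real.log ((p : ℝ) ^ a)) := by
    rw [Real.logb, Real.log_pow ((p : ℝ) ^ a) s]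
    field_simp
  unfold dev
  rw [h5, ← abs_of_pos (mul_pos hs0 hlog), ← abs_mul, ← abs_neg, h7]
  congr 1
  push_cast
  ring

theorem sum_le_sum_of_le {X : Type*} {s t : Multiset X} (h : s ≤ t) (f : X → ℝ)
    (hf : ∀ x, 0 ≤ f x) : (s.map f).sum ≤ (t.map f).sum := by
  obtain ⟨u, rfl⟩ := Multiset.le_iff_exists_add.1 h
  rw [Multiset.map_add, Multiset.sum_add]
  have : 0 ≤ (u.map f).sum := by
    refine Multiset.sum_nonneg ?_
    intro x hx
    obtain ⟨y, -, rfl⟩ := Multiset.mem_map.1 hx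
    exact hf y
  linarith

/-- **No relations.** -/
theorem no_relation {I : Type} [Finite I] {q : ℕ} {h : I → ℤ[X]} (p : ℕ) [Fact p.Prime] (a : ℕ)
    (ha : 0 < a) (hqp : q = p ^ a)
    (hm : ∀ i, (h i).Monic) (hirr : ∀ i, Irreducible ((h i).map (Int.castRingHom ℚ)))
    (hpat : ∀ i, ∃ l : ℕ, l.Prime ∧ l ≠ 2 ∧ ¬ l ∣ q ∧ FlipPattern q h i l)
    (g r : I → ℕ) (hg : ∀ i, 0 < g i)
    (hdeg : ∀ i, (weil q (h i)).natDegree = 2 * g i) (hr : ∀ i, r i ≤ 2 * g i)
    (hc : ∀ i, ¬ (p : ℤ) ∣ (weil q (h i)).coeff (2 * g i - r i))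
    (h0 : ∀ i, (weil q (h i)).coeff 0 = (q : ℤ) ^ g i) (P : ℕ) (hP : ∀ i, P ≤ r i)
    (s : ℕ) (hs : 0 < s) (w : ℕ) (χ : ℤ[X]) (hχ : χ.Monic)
    (hroots : ∀ z : ℂ, aeval z χ = 0 → ‖z‖ ^ 2 = ((q : ℝ) ^ s) ^ w)
    (hwidth : newtonWidth p ((q : ℝ) ^ s) w χ < 2 * P) (ρ : ℂ) (hρ : aeval ρ χ = 0)
    {n : ℕ} (hn : 0 < n) (c : ℕ) (hnc : n + w = 2 * c) (N : ℕ) (hN : 0 < N) (z : Fin n → ℂ)
    (hz : ∀ k, ∃ i, aeval (z k) (weil q (h i)) = 0)
    (hrel : ((∏ k, z k) ^ s * ρ) ^ N = (((q : ℂ) ^ s) ^ c) ^ N)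
    (hno : ∀ k l, k ≠ l → z k * z l ≠ q) : False := by
  classical
  cases nonempty_fintype I
  have hp0 : 0 < p := (Fact.out : p.Prime).pos
  have hq : q ≠ 0 := by rw [hqp]; exact pow_ne_zero _ hp0.ne'
  have hp1 : (1 : ℝ) < (p : ℝ) ^ a :=
    one_lt_pow₀ (by exact_mod_cast (Fact.out : p.Prime).one_lt) ha.ne'
  have hl : 0 < Real.log ((p : ℝ) ^ a) := Real.log_pos hp1
  have hPpos : 0 < P := by
    by_contra h1
    have h2 : P = 0 := by omega
    rw [h2] at hwidth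
    have := newtonWidth_nonneg p ((q : ℝ) ^ s) w χ
    norm_num at hwidth
    linarith
  -- the field
  let T : Finset ℂ := (Finset.univ.biUnion fun i =>
    ((weil q (h i)).map (algebraMap ℤ ℂ)).roots.toFinset) ∪ {ρ}
  have hTint : ∀ y : T, IsIntegral ℤ (y : ℂ) := by
    rintro ⟨y, hy⟩
    rcases Finset.mem_union.1 hy with h1 | h1
    · obtain ⟨i, -, h2⟩ := Finset.mem_biUnion.1 h1
      have h3 := (mem_roots'.1 (Multiset.mem_toFinset.1 h2)).2
      rw [IsRoot.def, eval_map] at h3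
      exact ⟨weil q (h i), weil_monic q (hm i), h3⟩
    · rw [Finset.mem_singleton] at h1
      subst h1
      exact ⟨χ, hχ, hρ⟩
  obtain ⟨L, hL1, hL2, j, hj⟩ := exists_galois_of (fun y : T => (y : ℂ)) hTint
  have hL : ∀ i, ∀ z : ℂ, aeval z (weil q (h i)) = 0 → ∃ x : L, j x = z := by
    intro i z hz
    refine hj ⟨z, Finset.mem_union.2 (Or.inl (Finset.mem_biUnion.2 ⟨i, Finset.mem_univ _, ?_⟩))⟩
    rw [Multiset.mem_toFinset, mem_roots ((weil_monic q (hm i)).map _).ne_zero, IsRoot.def, eval_map]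
    exact hz
  obtain ⟨r0, hr0⟩ : ∃ y : L, j y = ρ := hj ⟨ρ, Finset.mem_union.2 (Or.inr (by simp))⟩
  have hfl : ∀ i, ∀ α : L, aeval α (weil q (h i)) = 0 → Flippable q h α := by
    intro i α hα
    obtain ⟨l, hl, hl2, hlq, hp⟩ := hpat i
    exact all_flippable hq hm L j hL i (hirr i) hl hl2 hlq hp α hα
  have hdown : ∀ (f : ℤ[X]) (x : L), aeval (j x) f = 0 → aeval x f = 0 := by
    intro f x hx
    apply j.injective
    have h2 := Polynomial.hom_eval₂ f (algebraMap ℤ L) j x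
    rw [RingHom.ext_int (j.comp (algebraMap ℤ L)) (algebraMap ℤ ℂ)] at h2
    rw [map_zero]
    exact h2.trans hx
  choose i hi using hz
  choose x hx using fun k => hL (i k) (z k) (hi k)
  have hxr : ∀ k, aeval (x k) (weil q (h (i k))) = 0 := fun k => hdown _ _ (by rw [hx]; exact hi k)
  have hx0 : ∀ k, x k ≠ 0 := fun k => root_ne_zero hq (hm (i k)) (hxr k)
  have hqL : (q : L) ≠ 0 := by exact_mod_cast hq
  have hqC : (q : ℂ) ≠ 0 := by exact_mod_cast hq
  have hqR : (0 : ℝ) < q := by exact_mod_cast Nat.pos_of_ne_zero hq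
  let e : L →ₐ[ℚ] PadicAlgCl p := IsAlgClosed.lift
  have hnoL : ∀ k l, x l ≠ q / x k := by
    intro k l hkl
    by_cases hk : k = l
    · subst hk
      obtain ⟨-, h2⟩ := ne_conj hq hm hirr hpat (z k) ⟨i k, hi k⟩
      apply h2
      have h3 := congrArg j hkl
      rw [map_div₀, map_natCast, hx] at h3
      exact h3.symm
    · apply hno k l hk
      have h3 := congrArg j hkl
      rw [map_div₀, map_natCast, hx, hx] at h3
      have hz0 : z k ≠ 0 := by
        rw [← hx k, Ne, map_eq_zero]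
        exact hx0 k
      rw [h3]
      field_simp
  have hρ0 : ρ ≠ 0 := by
    rintro rfl
    have h1 := hroots 0 hρ
    rw [norm_zero] at h1
    norm_num at h1
    have : (0 : ℝ) < ((q : ℝ) ^ s) ^ w := by positivity
    linarith
  have hr00 : r0 ≠ 0 := by
    rintro rfl
    rw [map_zero] at hr0
    exact hρ0 hr0.symm
  set M : ℚ := ((p : ℚ) ^ a) ^ (s * w) with hM
  have hM0 : M ≠ 0 := pow_ne_zero _ (pow_ne_zero _ (by exact_mod_cast hp0.ne'))
  have hMq : ((M : ℚ) : ℂ) = ((((q : ℝ) ^ s) ^ w : ℝ) : ℂ) := by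
    rw [hM, hqp]
    push_cast
    rw [← pow_mul ((p : ℂ) ^ a)]
  -- divisibility of the minimal polynomial
  have hχL : aeval r0 χ = 0 := hdown χ r0 (by rw [hr0]; exact hρ)
  have hdvd : minpoly ℚ r0 ∣ χ.map (Int.castRingHom ℚ) := by
    apply minpoly.dvd
    rw [aeval_def, eval₂_map, RingHom.ext_int ((algebraMap ℚ L).comp (Int.castRingHom ℚ))
      (algebraMap ℤ L)]
    exact hχL
  have hconj : ∀ y : L, aeval y (minpoly ℚ r0) = 0 → aeval ((M : L) / y) (minpoly ℚ r0) = 0 := by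
    intro y hy
    have h1 : aeval (j y) (minpoly ℚ r0) = 0 := by
      have h2 := Polynomial.hom_eval₂ (minpoly ℚ r0) (algebraMap ℚ L) j y
      have h3 : eval₂ (algebraMap ℚ L) y (minpoly ℚ r0) = 0 := hy
      rw [h3, map_zero, RingHom.ext_rat (j.comp (algebraMap ℚ L)) (algebraMap ℚ ℂ)] at h2
      exact h2.symm
    have h2 : aeval (j y) χ = 0 := by
      obtain ⟨t, ht⟩ := hdvd
      have h3 : aeval (j y) (χ.map (Int.castRingHom ℚ)) = 0 := by
        rw [ht, map_mul, h1, zero_mul]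
      rw [aeval_def, eval₂_map, RingHom.ext_int ((algebraMap ℚ ℂ).comp (Int.castRingHom ℚ))
        (algebraMap ℤ ℂ)] at h3
      exact h3
    have h3 := hroots _ h2
    have hjy : j y ≠ 0 := by
      intro h4
      rw [h4, norm_zero] at h3
      norm_num at h3
      have : (0 : ℝ) < ((q : ℝ) ^ s) ^ w := by positivity
      linarith
    have h4 : j ((M : L) / y) = (starRingEnd ℂ) (j y) := by
      rw [map_div₀, map_ratCast, div_eq_iff hjy, mul_comm, Complex.mul_conj,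
        Complex.normSq_eq_norm_sq, h3, hMq]
    apply j.injective
    rw [map_zero]
    have h5 := Polynomial.hom_eval₂ (minpoly ℚ r0) (algebraMap ℚ L) j ((M : L) / y)
    have h6 := Polynomial.hom_eval₂ (minpoly ℚ r0) (algebraMap ℚ ℂ) (starRingEnd ℂ) (j y)
    have h7 : eval₂ (algebraMap ℚ ℂ) (j y) (minpoly ℚ r0) = 0 := h1
    rw [h7, map_zero, RingHom.ext_rat ((starRingEnd ℂ).comp (algebraMap ℚ ℂ)) (algebraMap ℚ ℂ)] at h6
    rw [RingHom.ext_rat (j.comp (algebraMap ℚ L)) (algebraMap ℚ ℂ), h4, ← h6] at h5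
    exact h5
  -- the relation
  have hrelL : ((∏ k, x k) ^ s * r0) ^ N = (((q : L) ^ s) ^ c) ^ N := by
    apply j.injective
    rw [map_pow, map_mul, map_pow, map_prod, hr0, map_pow, map_pow, map_pow, map_natCast,
      Finset.prod_congr rfl fun k _ => hx k]
    exact hrel
  have hlogq : Real.log ‖(((p : ℚ) ^ a : ℚ) : PadicAlgCl p)‖ = - Real.log ((p : ℝ) ^ a) := by
    rw [norm_pow_cast, Real.log_inv]
  have hrelσ : ∀ σ : L ≃ₐ[ℚ] L, dev p M (e (σ r0)) = -(s : ℝ) * ∑ k, dv p a e (σ (x k)) := by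
    intro σ
    have hne : ∀ k, ‖e (σ (x k))‖ ≠ 0 := by
      intro k
      rw [norm_ne_zero_iff, Ne, map_eq_zero, map_eq_zero]
      exact hx0 k
    have hner : ‖e (σ r0)‖ ≠ 0 := by
      rw [norm_ne_zero_iff, Ne, map_eq_zero, map_eq_zero]
      exact hr00
    have h1 := congrArg (fun y => Real.log ‖e (σ y)‖) hrelL
    have h2 : e (σ ((((q : L) ^ s) ^ c) ^ N)) =
        ((((p : ℚ) ^ a : ℚ) : PadicAlgCl p)) ^ (s * c * N) := by
      rw [map_pow, map_pow, map_pow, map_pow, map_pow, map_pow, map_natCast, map_natCast, hqp,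
        ← pow_mul, ← pow_mul]
      push_cast
      rw [mul_assoc]
    beta_reduce at h1
    rw [h2] at h1
    simp only [map_pow, map_mul, map_prod, norm_pow, norm_mul, norm_prod, Real.log_pow] at h1
    rw [Real.log_mul (pow_ne_zero _ (Finset.prod_ne_zero_iff.2 fun k _ => hne k)) hner,
      Real.log_pow, Real.log_prod (fun k _ => hne k), hlogq] at h1
    have h3 : ∑ k, dv p a e (σ (x k)) = 2 * ∑ k, Real.log ‖e (σ (x k))‖ +
        n * Real.log ((p : ℝ) ^ a) := by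
      have h4 : ∀ k, dv p a e (σ (x k)) = 2 * Real.log ‖e (σ (x k))‖ + Real.log ((p : ℝ) ^ a) := by
        intro k
        unfold dv dev
        rw [hlogq]
        ring
      rw [Finset.sum_congr rfl fun k _ => h4 k, Finset.sum_add_distrib, ← Finset.mul_sum,
        Finset.sum_const, Finset.card_univ, Fintype.card_fin, nsmul_eq_mul]
    have h5 : Real.log ‖((M : ℚ) : PadicAlgCl p)‖ = - ((s * w : ℕ) : ℝ) * Real.log ((p : ℝ) ^ a) := by
      have h6 : ((M : ℚ) : PadicAlgCl p) = ((((p : ℚ) ^ a : ℚ)) : PadicAlgCl p) ^ (s * w) := by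
        rw [hM]; push_cast; rfl
      rw [h6, norm_pow, norm_pow_cast, Real.log_pow, Real.log_inv]
      ring
    unfold dev
    rw [h5, h3]
    have hN0 : (N : ℝ) ≠ 0 := by exact_mod_cast hN.ne'
    have hncR : (n : ℝ) + w = 2 * c := by exact_mod_cast hnc
    apply mul_left_cancel₀ hN0
    push_cast at h1 ⊢
    have h7 : (w : ℝ) = 2 * c - n := by linarith
    rw [h7]
    linear_combination 2 * h1
  let k₀ : Fin n := ⟨0, hn⟩
  have hmean := mean_ge hq hm j hL p a hqp e (i k₀) (hirr _) (g (i k₀)) (r (i k₀)) (hdeg _) (hr _)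
    (hc _) (h0 _) (x k₀) (hxr k₀)
  have hG : (0 : ℝ) < Fintype.card (L ≃ₐ[ℚ] L) := by exact_mod_cast Fintype.card_pos
  have hrpos : (0 : ℝ) < r (i k₀) := by
    have := hP (i k₀)
    have h1 : 0 < r (i k₀) := by omega
    exact_mod_cast h1
  have hSpos : 0 < ∑ σ : L ≃ₐ[ℚ] L, |dv p a e (σ (x k₀))| := by
    by_contra hle
    have h1 : 0 < (Fintype.card (L ≃ₐ[ℚ] L) : ℝ) *
      (2 * r (i k₀) * Real.log ((p : ℝ) ^ a)) := by positivity
    have h2 : (2 * (g (i k₀)) : ℝ) * ∑ σ : L ≃ₐ[ℚ] L, |dv p a e (σ (x k₀))| ≤ 0 :=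
      mul_nonpos_of_nonneg_of_nonpos (by positivity) (not_lt.1 hle)
    linarith
  have hne : ∃ σ : L ≃ₐ[ℚ] L, dv p a e (σ (x k₀)) ≠ 0 := by
    by_contra hall
    push Not at hall
    rw [Finset.sum_eq_zero fun σ _ => by rw [hall σ, abs_zero]] at hSpos
    exact lt_irrefl _ hSpos
  have hs0 : (0 : ℝ) < s := by exact_mod_cast hs
  have hdegρ := deg_ge hq hm j hL p a hqp e hirr hfl x i hxr hnoL k₀ hne M hM0 r0 hr00 hconj
    (-(s : ℝ)) (neg_ne_zero.2 hs0.ne') hrelσ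
  have hgh : (h (i k₀)).natDegree = g (i k₀) := by
    have h1 := hdeg (i k₀)
    rw [weil_natDegree q (hm _)] at h1
    omega
  rw [hgh] at hdegρ
  have hdegR : (2 * (g (i k₀)) : ℝ) ≤ (minpoly ℚ r0).natDegree := by exact_mod_cast hdegρ
  -- the upper bound
  have horb := Pool.Agent.W484.AS.sum_orbit p e r0 (fun y => |dev p M y|)
  have hup : (((minpoly ℚ r0).aroots (PadicAlgCl p)).map (fun y => |dev p M y|)).sum ≤
      s * Real.log ((p : ℝ) ^ a) * newtonWidth p ((q : ℝ) ^ s) w χ := by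
    refine (sum_le_sum_of_le (Pool.Agent.W484.AS.aroots_le hχ hdvd) _
      fun y => abs_nonneg _).trans ?_
    unfold newtonWidth
    rw [← Multiset.sum_map_mul_left]
    refine le_of_eq ?_
    congr 1
    refine Multiset.map_congr rfl fun y _ => ?_
    rw [hM, abs_dev_eq_width p a ha s w hs y, hqp]
    push_cast
    rfl
  have hlow : (s : ℝ) * ∑ σ : L ≃ₐ[ℚ] L, |dv p a e (σ (x k₀))| ≤
      ∑ σ : L ≃ₐ[ℚ] L, |dev p M (e (σ r0))| := by
    obtain ⟨ψ, h1, -, h3⟩ := hfl (i k₀) (x k₀) (hxr k₀)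
    have h4 := sum_abs_ge (X := L) (G := L ≃ₐ[ℚ] L) (fun y => (q : L) / y) (dv p a e) x k₀ (by
        intro σ
        change dv p a e (σ ((q : L) / x k₀)) = - dv p a e (σ (x k₀))
        rw [map_div₀, map_natCast]
        exact dv_inv p a hqp e _ (by rw [Ne, map_eq_zero]; exact hx0 k₀)) ψ h1
        (fun l hl => h3 (i l) (x l) (hxr l) hl (hnoL k₀ l))
    have h5 : ∀ σ : L ≃ₐ[ℚ] L, |dev p M (e (σ r0))| = s * |∑ k, dv p a e (σ (x k))| := by
      intro σ
      rw [hrelσ, abs_mul, abs_neg, abs_of_pos hs0]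
    rw [Finset.sum_congr rfl fun σ _ => h5 σ, ← Finset.mul_sum]
    exact mul_le_mul_of_nonneg_left h4 hs0.le
  set S₁ := ∑ σ : L ≃ₐ[ℚ] L, |dv p a e (σ (x k₀))| with hS₁
  set S₂ := ∑ σ : L ≃ₐ[ℚ] L, |dev p M (e (σ r0))| with hS₂
  set W := newtonWidth p ((q : ℝ) ^ s) w χ with hW
  set l := Real.log ((p : ℝ) ^ a) with hl'
  have h1 : (2 * (g (i k₀)) : ℝ) * (s * S₁) ≤ Fintype.card (L ≃ₐ[ℚ] L) * (s * l * W) := by
    calc (2 * (g (i k₀)) : ℝ) * (s * S₁) ≤ (minpoly ℚ r0).natDegree * S₂ :=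
          mul_le_mul hdegR hlow (by positivity) (Nat.cast_nonneg _)
      _ = _ := horb
      _ ≤ _ := mul_le_mul_of_nonneg_left hup hG.le
  have h2 : (Fintype.card (L ≃ₐ[ℚ] L) : ℝ) * s * l * (2 * r (i k₀)) ≤
      (Fintype.card (L ≃ₐ[ℚ] L) : ℝ) * s * l * W := by
    have h3 := mul_le_mul_of_nonneg_left hmean hs0.le
    nlinarith
  have h3 : (2 * r (i k₀) : ℝ) ≤ W := le_of_mul_le_mul_left h2 (by positivity)
  have h4 : (P : ℝ) ≤ r (i k₀) := by exact_mod_cast hP (i k₀)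
  linarith

end Pool.Agent.W484.AA
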