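import Mathlib
import Pool.Agent.W484.AA.Rel
import Pool.Agent.W484.AA.Main
import Pool.Agent.W484.AS.Prod

/-!
# Tate classes on products of abelian varieties and varieties of small width
-/

set_option autoImplicit false
set_option linter.unusedSectionVars false

namespace Pool.Agent.W484.AA

open Polynomial Module Pool.Agent.H925R2 Pool.Agent.H485R3 Pool.Agent.W484.BB Pool.Agent.W521.Frob
  Pool.Agent.W521.Criterion Pool.Agent.W521.Descent Pool.Agent.W521.Count Pool.Agent.W521.Bad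
  Pool.Agent.W521.Density ExteriorAlgebra Pool.Agent.H204R3.CM
  Pool.Agent.H868R3.TwoOdd Pool.Agent.H194R3.Weil TensorProduct Pool.Agent.W484.AS

section general

variable {V : Type*} [AddCommGroup V] [Module ℂ V] {H : Type*} [AddCommGroup H] [Module ℂ H]

/-- The span of the products `Z 0 * ... * Z (k - 1) ⊗ u` with `n = 2 k`, `w = 2 b`, divisor
classes `Z l` and a Tate class `u` (over some extension): it is zero if `n` or `w` is odd. -/
def tateProducts (F : V →ₗ[ℂ] V) (G : H →ₗ[ℂ] H) (Q : ℂ) (n w : ℕ) :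
    Submodule ℂ (ExteriorAlgebra ℂ V ⊗[ℂ] H) :=
  Submodule.span ℂ {t | ∃ (k b : ℕ) (Z : Fin k → ExteriorAlgebra ℂ V) (u : H),
    n = 2 * k ∧ w = 2 * b ∧ (∀ l, IsDivisorClass F Q (Z l)) ∧
    (∃ N : ℕ, 0 < N ∧ (G ^ N) u = (Q ^ b) ^ N • u) ∧ t = (List.ofFn Z).prod ⊗ₜ u}

theorem products_le (F : V →ₗ[ℂ] V) (G : H →ₗ[ℂ] H) (Q : ℂ) (k b n w : ℕ) (hn : n = 2 * k)
    (hw : w = 2 * b) : products F G Q k b ≤ tateProducts F G Q n w := by
  refine Submodule.span_mono ?_
  rintro t ⟨Z, u, h1, h2, h3⟩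
  exact ⟨k, b, Z, u, hn, hw, h1, h2, h3⟩

/-- A relation implies a pair. -/
def PairProp {X : Type*} (val : X → ℂ) (Q ρ : ℂ) (w : ℕ) : Prop :=
  ∀ n c s : ℕ, 0 < s → 0 < n → n + w = 2 * c → ∀ ys : List X, ys.length = n →
    ((ys.map val).prod * ρ) ^ s = (Q ^ c) ^ s →
      ¬ ys.Pairwise (fun y y' => ¬ BB.Good Q (val y) (val y'))

theorem list_gen {X : Type*} (F : V →ₗ[ℂ] V) (val : X → ℂ) (Q ρ : ℂ) (hQ : Q ≠ 0) (w : ℕ)
    (hpair : PairProp val Q ρ w) :
    ∀ n c s : ℕ, 0 < s → n + w = 2 * c → ∀ L : List (V × X), L.length = n →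
      (∀ e ∈ L, F e.1 = val e.2 • e.1) →
      ((L.map (fun e => val e.2)).prod * ρ) ^ s = (Q ^ c) ^ s →
      ∃ k b : ℕ, n = 2 * k ∧ w = 2 * b ∧
        (L.map (fun e => ι ℂ e.1)).prod ∈ divSpan F Q k ∧
          ∃ N : ℕ, 0 < N ∧ ρ ^ N = (Q ^ b) ^ N := by
  intro n
  induction n using Nat.strong_induction_on with
  | _ n ih =>
    intro c s hs hnc L hlen hL hrel
    rcases Nat.eq_zero_or_pos n with hn | hn
    · subst hn
      have hL0 : L = [] := List.length_eq_zero_iff.1 hlen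
      subst hL0
      refine ⟨0, c, rfl, by omega, Submodule.subset_span ⟨Fin.elim0, fun l => l.elim0, by simp⟩,
        s, hs, ?_⟩
      simpa using hrel
    · have h1 := hpair n c s hs hn hnc (L.map Prod.snd) (by rw [List.length_map, hlen]) (by
        rw [List.map_map]
        exact hrel)
      rw [List.pairwise_map] at h1
      obtain ⟨e, e', L', hperm, hgood⟩ := exists_of_not_pairwise _ L h1
      rw [not_not] at hgood
      have heL : e ∈ L := hperm.mem_iff.2 (by simp)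
      have heL' : e' ∈ L := hperm.mem_iff.2 (by simp)
      have hlen' : n = L'.length + 2 := by
        have h2 := hperm.length_eq
        rw [List.length_cons, List.length_cons, hlen] at h2
        omega
      obtain ⟨c', rfl⟩ : ∃ c', c = c' + 1 := ⟨c - 1, by omega⟩
      obtain ⟨b', hb'⟩ := prod_perm (K := ℂ) hperm
      obtain ⟨N, hN, hg⟩ := hgood
      obtain ⟨k, b, h2, h3, h4, h5⟩ := ih L'.length (by omega) c' (s * N) (Nat.mul_pos hs hN)
        (by omega) L' rfl (fun e₁ he₁ => hL e₁ (hperm.mem_iff.2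
          (List.mem_cons_of_mem _ (List.mem_cons_of_mem _ he₁)))) (by
        have h3 : (L.map (fun e => val e.2)).prod =
            val e.2 * val e'.2 * (L'.map (fun e => val e.2)).prod := by
          rw [(hperm.map (fun e => val e.2)).prod_eq, List.map_cons, List.prod_cons,
            List.map_cons, List.prod_cons, mul_assoc]
        rw [h3] at hrel
        have h4 := congrArg (fun z => z ^ N) hrel
        beta_reduce at h4
        have h5 : ((val e.2 * val e'.2 * (L'.map (fun e => val e.2)).prod * ρ) ^ s) ^ N =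
            ((val e.2 * val e'.2) ^ N) ^ s *
              ((L'.map (fun e => val e.2)).prod * ρ) ^ (s * N) := by
          rw [← pow_mul, ← pow_mul, mul_assoc (val e.2 * val e'.2), mul_pow,
            mul_comm N s]
        rw [h5, hg] at h4
        have h6 : ((Q ^ (c' + 1)) ^ s) ^ N = (Q ^ N) ^ s * (Q ^ c') ^ (s * N) := by
          ring
        rw [h6] at h4
        exact mul_left_cancel₀ (pow_ne_zero _ (pow_ne_zero _ hQ)) h4)
      refine ⟨k + 1, b, by omega, h3, ?_, h5⟩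
      rw [hb']
      refine Submodule.smul_mem _ _ ?_
      rw [List.map_cons, List.prod_cons, List.map_cons, List.prod_cons, ← mul_assoc]
      exact mul_mem_divSpan F _ k _
        (isDivisorClass_of_good F _ _ _ _ _ (hL e heL) (hL e' heL') ⟨N, hN, hg⟩) _ h4

/-- **Tate classes on the product.** -/
theorem mem_tateProducts {X : Type*} [FiniteDimensional ℂ V] [FiniteDimensional ℂ H]
    (F : V →ₗ[ℂ] V) (val : X → ℂ) (hF : Submodule.span ℂ {v : V | ∃ x, F v = val x • v} = ⊤)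
    (Q : ℂ) (hQ : Q ≠ 0) (G : H →ₗ[ℂ] H) (w : ℕ)
    (hG : ∀ ρ, Module.End.HasEigenvalue G ρ → PairProp val Q ρ w)
    (n c s : ℕ) (hs : 0 < s) (hnc : n + w = 2 * c) (u : (⋀[ℂ]^n V) ⊗[ℂ] H)
    (hu : TensorProduct.map (exteriorPower.map n F ^ s) (G ^ s) u = (Q ^ c) ^ s • u) :
    incl V H n u ∈ tateProducts F G Q n w := by
  classical
  obtain ⟨r, b', α, hα, hb'⟩ := exists_eigenbasis_list F val hF n
  obtain ⟨h, hh, h1⟩ := components_left (exteriorPower.map n F ^ s) (G ^ s) b'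
    (fun j => α j ^ s) (fun j => pow_apply_eigen _ _ _ (hb' j) s) _ u hu
  rw [hh, map_sum]
  refine Submodule.sum_mem _ fun j _ => ?_
  have h5 : incl V H n (b' j ⊗ₜ h j) = (b' j : ExteriorAlgebra ℂ V) ⊗ₜ h j := by
    rw [incl, TensorProduct.map_tmul]
    rfl
  rw [h5]
  by_cases hj : h j = 0
  · rw [hj, TensorProduct.tmul_zero]
    exact Submodule.zero_mem _
  have hα0 : α j ^ s ≠ 0 := by
    intro h0
    have h2 := h1 j
    rw [h0, zero_smul] at h2
    have h3 : ((Q ^ c) ^ s) • h j = 0 := h2.symm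
    rcases smul_eq_zero.1 h3 with h4 | h4
    · exact pow_ne_zero _ (pow_ne_zero _ hQ) h4
    · exact hj h4
  obtain ⟨c', hc'⟩ : ∃ c', c' = (Q ^ c) ^ s / α j ^ s := ⟨_, rfl⟩
  have h2 : (G ^ s) (h j) = c' • h j := by
    have h3 := congrArg (fun z => (α j ^ s)⁻¹ • z) (h1 j)
    simp only [smul_smul] at h3
    rw [inv_mul_cancel₀ hα0, one_smul] at h3
    rw [h3, hc', div_eq_inv_mul]
  have h3 : Module.End.HasEigenvalue (G ^ s) c' :=
    Module.End.hasEigenvalue_of_hasEigenvector ⟨Module.End.mem_eigenspace_iff.2 h2, hj⟩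
  have h4 : c' ∈ spectrum ℂ (G ^ s) := Module.End.hasEigenvalue_iff_mem_spectrum.1 h3
  rw [spectrum.map_pow_of_pos G hs] at h4
  obtain ⟨ρ, hρ, hρs⟩ := h4
  have hρe : Module.End.HasEigenvalue G ρ := Module.End.hasEigenvalue_iff_mem_spectrum.2 hρ
  have hpair := hG ρ hρe
  have hρs : ρ ^ s = c' := hρs
  have hrel : (α j * ρ) ^ s = (Q ^ c) ^ s := by
    rw [mul_pow, hρs, hc', mul_div_cancel₀ _ hα0]
  have hlist := list_gen (V := V) F val Q ρ hQ w hpair n c s hs hnc
  -- the second factor is a Tate class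
  obtain ⟨L, hL, hLα⟩ := hα j
  obtain ⟨k, b, hk, hb, _, N, hN, hρN⟩ := hlist (L.map (fun x => ((0 : V), x)))
    (by rw [List.length_map, hL])
    (by
      intro e he
      rw [List.mem_map] at he
      obtain ⟨x, _, rfl⟩ := he
      rw [map_zero, smul_zero]) (by
      rw [List.map_map]
      have h6 : ((fun e : V × X => val e.2) ∘ fun x => ((0 : V), x)) = val := rfl
      rw [h6, ← hLα]
      exact hrel)
  refine products_le F G Q k b n w hk hb (tmul_mem_products F G _ k b (h j) ?_ _ ?_)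
  · refine ⟨s * N, Nat.mul_pos hs hN, ?_⟩
    rw [pow_mul, pow_apply_eigen (G ^ s) (h j) c' h2 N, ← hρs, ← pow_mul, mul_comm s N, pow_mul,
      hρN, ← pow_mul]
  · have h6 : ExteriorAlgebra.map F (b' j : ExteriorAlgebra ℂ V) = α j • (b' j :
        ExteriorAlgebra ℂ V) := by
      rw [← Pool.Agent.W484.BB.coe_map, hb' j]
      rfl
    refine mem_of_lists_sub F val hF n 1 (α j) _ ?_ _ (b' j).2 (by
      rw [pow_one]
      exact h6)
    intro L hlen hL hLα
    rw [pow_one] at hLα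
    obtain ⟨k', b'', hk', -, h7, -⟩ := hlist L hlen hL (by rw [hLα]; exact hrel)
    have h8 : k' = k := by omega
    rw [← h8]
    exact h7

end general

/-- The Weil polynomials of `p`-rank at least `P`: some coefficient of index `2 g - r`,
`P ≤ r ≤ g`, is prime to `q`. -/
def rankWeilPolys (q g P : ℕ) : Set ℤ[X] :=
  {f ∈ weilPolys q g | ∃ r, r ≤ g ∧ P ≤ r ∧ IsCoprime (f.coeff (2 * g - r)) (q : ℤ)}

/-- `G` is an endomorphism with characteristic polynomial `χ`, all roots of `χ` have the absolute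
value `Q ^ (w / 2)`, `Q = q ^ s`, and the sum of the `|2 λ - w|`, `λ` the slopes of `χ`, is smaller
than `2 P`. -/
def IsNarrow {H : Type} [AddCommGroup H] [Module ℂ H] [FiniteDimensional ℂ H] (q s w P : ℕ)
    (G : H →ₗ[ℂ] H) (χ : ℤ[X]) : Prop :=
  G.charpoly = χ.map (Int.castRingHom ℂ) ∧ (∀ z : ℂ, aeval z χ = 0 → ‖z‖ ^ 2 = ((q : ℝ) ^ s) ^ w) ∧
    ∀ (p : ℕ) [Fact p.Prime], p ∣ q → newtonWidth p ((q : ℝ) ^ s) w χ < 2 * P

/-- Every class in `⋀ ^ n V ⊗ H`, `n + w = 2 c`, on which the Frobenius of some extension of the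
field with `Q = q ^ s` elements acts as a power of `Q ^ c`, is a linear combination of products
of divisor classes and a Tate class in `H`. -/
def TateFormula {V : Type} [AddCommGroup V] [Module ℂ V] {H : Type} [AddCommGroup H] [Module ℂ H]
    (Q : ℂ) (F : V →ₗ[ℂ] V) (G : H →ₗ[ℂ] H) (w : ℕ) : Prop :=
  ∀ n c N : ℕ, n + w = 2 * c → 0 < N → ∀ u : (⋀[ℂ]^n V) ⊗[ℂ] H,
    TensorProduct.map (exteriorPower.map n F ^ N) (G ^ N) u = (Q ^ c) ^ N • u →
      incl V H n u ∈ tateProducts F G Q n w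

/-- The formula for all products of powers of abelian varieties with characteristic polynomials
`f i`, all extensions, and all `H`. -/
def TateForNarrow {I : Type} (q P : ℕ) (f : I → ℤ[X]) : Prop :=
  ∀ (V : Type) [AddCommGroup V] [Module ℂ V] [FiniteDimensional ℂ V] (F : V →ₗ[ℂ] V),
    Submodule.span ℂ {v : V | ∃ i, ∃ z : ℂ, aeval z (f i) = 0 ∧ F v = z • v} = ⊤ →
    ∀ s : ℕ, 0 < s →
    ∀ (H : Type) [AddCommGroup H] [Module ℂ H] [FiniteDimensional ℂ H] (G : H →ₗ[ℂ] H) (w : ℕ)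
      (χ : ℤ[X]), IsNarrow q s w P G χ → TateFormula ((q : ℂ) ^ s) (F ^ s) G w

theorem tate_of_good {I : Type} [Fintype I] [DecidableEq I] (g : I → ℕ) (hg : ∀ i, 0 < g i)
    {q : ℕ} (hqpp : IsPrimePow q) (P : ℕ)
    (x : (Σ i, Fin (g i)) → ℤ) (hx : Pool.Agent.W521.Bad.Good g q x)
    (hw : ∀ i, weil q (polys g x i) ∈ rankWeilPolys q (g i) P) :
    TateForNarrow q P (fun i => weil q (polys g x i)) := by
  classical
  intro V _ _ _ F hF s hs H _ _ _ G w χ hχ n c N hnc hN u hu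
  obtain ⟨hpat, hirr, -⟩ := hx
  rw [isPrimePow_nat_iff] at hqpp
  obtain ⟨p, a, hp, ha, hqp⟩ := hqpp
  have : Fact p.Prime := ⟨hp⟩
  have hq0 : q ≠ 0 := by rw [← hqp]; exact pow_ne_zero _ hp.ne_zero
  have hm : ∀ i, (polys g x i).Monic := fun i => mkPoly_monic (g i) _
  choose hw1 r hr1 hr2 hr3 using hw
  obtain ⟨hχ1, hχ2, hχ3⟩ := hχ
  have hχm : χ.Monic := by
    have h1 := G.charpoly_monic
    rw [hχ1] at h1
    exact Polynomial.monic_of_injective (Int.castRingHom ℂ).injective_int h1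
  let X := {z : ℂ // ∃ i, aeval z (weil q (polys g x i)) = 0}
  let val : X → ℂ := fun z => (z : ℂ) ^ s
  have hspan : Submodule.span ℂ {v : V | ∃ y : X, (F ^ s) v = val y • v} = ⊤ := by
    rw [eq_top_iff, ← hF]
    refine Submodule.span_mono ?_
    rintro v ⟨i, z, hz, hv⟩
    exact ⟨⟨z, i, hz⟩, pow_apply_eigen F v z hv s⟩
  have hQ : (q : ℂ) ^ s ≠ 0 := pow_ne_zero _ (by exact_mod_cast hq0)
  refine mem_tateProducts (F ^ s) val hspan ((q : ℂ) ^ s) hQ G w ?_ n c N hN hnc u hu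
  intro ρ hρe n c N hN hn hnc ys hlen hrel hpw
  have hρ : aeval ρ χ = 0 := by
    have h1 := Module.End.hasEigenvalue_iff_isRoot_charpoly _ _ |>.1 hρe
    rw [hχ1, IsRoot.def, eval_map, RingHom.ext_int (Int.castRingHom ℂ) (algebraMap ℤ ℂ)] at h1
    exact h1
  have hcc : ∀ i, ¬ (p : ℤ) ∣ (weil q (polys g x i)).coeff (2 * g i - r i) := by
    intro i hdvd
    have h2 : (p : ℤ) ∣ (q : ℤ) := by
      rw [← hqp]
      push_cast
      exact dvd_pow_self _ ha.ne'
    have h3 := (hr3 i).isUnit_of_dvd' hdvd h2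
    have h4 := Int.isUnit_iff.1 h3
    have h5 := hp.one_lt
    omega
  have hpq : p ∣ q := by
    rw [← hqp]
    exact dvd_pow_self _ ha.ne'
  refine no_relation p a ha hqp.symm hm hirr hpat g r hg (fun i => (hw1 i).2.1)
    (fun i => by have := hr1 i; omega) hcc (fun i => (hw1 i).2.2.1) P hr2 s hs w χ hχm hχ2
    (hχ3 p hpq) ρ hρ hn c hnc N hN
    (fun l => ((ys.get (Fin.cast hlen.symm l) : X) : ℂ))
    (fun l => (ys.get (Fin.cast hlen.symm l)).2) ?_ ?_
  · rw [← hrel]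
    congr 2
    have h6 : ∏ l : Fin n, ((ys.get (Fin.cast hlen.symm l) : X) : ℂ) =
        (ys.map (fun y : X => (y : ℂ))).prod := by
      have h61 : ∏ l : Fin n, ((ys.get (Fin.cast hlen.symm l) : X) : ℂ) =
          ∏ l : Fin ys.length, ((ys.get l : X) : ℂ) :=
        Fintype.prod_equiv (finCongr hlen.symm) _ _ fun l => rfl
      rw [h61, ← List.prod_ofFn]
      congr 1
      apply List.ext_getElem
      · simp
      · intro i h1 h2
        simp
    rw [h6]
    have h7 : ∀ ys : List X, (ys.map (fun y : X => (y : ℂ))).prod ^ s = (ys.map val).prod := by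
      intro ys
      induction ys with
      | nil => simp
      | cons y ys ih =>
        rw [List.map_cons, List.prod_cons, mul_pow, ih, List.map_cons, List.prod_cons]
    exact h7 ys
  · have hbad : ∀ k' l' : Fin ys.length, k' < l' →
        ((ys.get k' : X) : ℂ) * ((ys.get l' : X) : ℂ) ≠ q := by
      intro k' l' hkl h8
      refine (List.pairwise_iff_get.1 hpw) k' l' hkl ⟨1, one_pos, ?_⟩
      rw [pow_one, pow_one]
      change ((ys.get k' : X) : ℂ) ^ s * ((ys.get l' : X) : ℂ) ^ s = _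
      rw [← mul_pow, h8]
    intro k' l' hkl
    rcases lt_or_gt_of_ne hkl with h | h
    · exact hbad _ _ h
    · intro h8
      rw [mul_comm] at h8
      exact hbad _ _ h h8

/-- **The count.** -/
theorem tate_count {I : Type} [Fintype I] (g : I → ℕ) (hg : ∀ i, 0 < g i) :
    ∃ C : ℝ, ∀ q : ℕ, IsPrimePow q → ∀ (P : ℕ) (S : I → Set ℤ[X]),
      (∀ i, ordinaryWeilPolys q (g i) ⊆ S i ∧ S i ⊆ rankWeilPolys q (g i) P) →
      (∀ i, (S i).Finite ∧ (S i).Nonempty) ∧
      ({f : I → ℤ[X] | (∀ i, f i ∈ S i) ∧ ¬ TateForNarrow q P f}.ncard : ℝ) ≤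
        C * (Real.log q * (q : ℝ) ^ (-(1 / 6) : ℝ)) * ∏ i, ((S i).ncard : ℝ) := by
  classical
  obtain ⟨C, hC, h⟩ := Pool.Agent.W521.Total.main_count g hg
  refine ⟨C, fun q hq P S hS => ?_⟩
  have hsub : ∀ i, S i ⊆ weilPolys q (g i) := fun i => (hS i).2.trans fun f hf => hf.1
  have hfinS : ∀ i, (S i).Finite := fun i => (finite_weilPolys hq.pos.ne').subset (hsub i)
  refine ⟨fun i => ⟨hfinS i, ⟨_, (hS i).1 (ordinary_nonempty hq.pos (g i))⟩⟩, ?_⟩
  have h1 := h q hq (fun f => (∀ i, f i ∈ rankWeilPolys q (g i) P) → TateForNarrow q P f)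
    (fun x hx hw => tate_of_good g hg hq P x hx hw)
  have hfin : {f : I → ℤ[X] | (∀ i, f i ∈ weilPolys q (g i)) ∧
      ¬ ((∀ i, f i ∈ rankWeilPolys q (g i) P) → TateForNarrow q P f)}.Finite :=
    (Pool.Agent.W521.Total.finite_tuples g hq.pos.ne').subset fun f hf => hf.1
  have h2 : {f : I → ℤ[X] | (∀ i, f i ∈ S i) ∧ ¬ TateForNarrow q P f}.ncard ≤
      {f : I → ℤ[X] | (∀ i, f i ∈ weilPolys q (g i)) ∧
        ¬ ((∀ i, f i ∈ rankWeilPolys q (g i) P) → TateForNarrow q P f)}.ncard :=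
    Set.ncard_le_ncard (fun f hf => ⟨fun i => hsub i (hf.1 i), fun h3 => hf.2 (h3 fun i =>
      (hS i).2 (hf.1 i))⟩) hfin
  have hr : 0 ≤ Real.log q * (q : ℝ) ^ (-(1 / 6) : ℝ) := rate_nonneg q
  calc ({f : I → ℤ[X] | (∀ i, f i ∈ S i) ∧ ¬ TateForNarrow q P f}.ncard : ℝ) ≤ _ := by
        exact_mod_cast h2
    _ ≤ C * (Real.log q * (q : ℝ) ^ (-(1 / 6) : ℝ)) *
          ∏ i, ((ordinaryWeilPolys q (g i)).ncard : ℝ) := h1
    _ ≤ C * (Real.log q * (q : ℝ) ^ (-(1 / 6) : ℝ)) * ∏ i, ((S i).ncard : ℝ) := by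
        refine mul_le_mul_of_nonneg_left ?_ (mul_nonneg hC.le hr)
        refine Finset.prod_le_prod (fun i _ => Nat.cast_nonneg _) fun i _ => ?_
        exact_mod_cast Set.ncard_le_ncard (hS i).1 (hfinS i)

end Pool.Agent.W484.AA
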