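import Mathlib
import Pool.Agent.W484.AA.Rank
import Pool.Agent.W484.AA.Tate

/-!
# Tate classes on products of abelian varieties and arbitrary varieties of small rank
-/

set_option autoImplicit false
set_option linter.unusedSectionVars false

namespace Pool.Agent.W484.AA

open Polynomial Module Pool.Agent.H925R2 Pool.Agent.H485R3 Pool.Agent.W484.BB Pool.Agent.W521.Frob
  Pool.Agent.W521.Criterion Pool.Agent.W521.Descent Pool.Agent.W521.Count Pool.Agent.W521.Bad
  Pool.Agent.W521.Density ExteriorAlgebra Pool.Agent.H204R3.CM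
  Pool.Agent.H868R3.TwoOdd Pool.Agent.H194R3.Weil TensorProduct Pool.Agent.W484.AS

section general

variable {V : Type*} [AddCommGroup V] [Module ℂ V] {H : Type*} [AddCommGroup H] [Module ℂ H]

/-- The span of the products `Z 0 * ... * Z (k - 1) ⊗ h` with `n = 2 k`, divisor classes `Z l` and
a class `h` on which the Frobenius of some extension acts as a power of `Q ^ (c - k)`: it is zero
if `n` is odd. -/
def mixedProducts (F : V →ₗ[ℂ] V) (G : H →ₗ[ℂ] H) (Q : ℂ) (n : ℕ) (c : ℤ) :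
    Submodule ℂ (ExteriorAlgebra ℂ V ⊗[ℂ] H) :=
  Submodule.span ℂ {t | ∃ (k : ℕ) (Z : Fin k → ExteriorAlgebra ℂ V) (h : H),
    n = 2 * k ∧ (∀ l, IsDivisorClass F Q (Z l)) ∧
    (∃ N : ℕ, 0 < N ∧ (G ^ N) h = (Q ^ (c - k)) ^ N • h) ∧ t = (List.ofFn Z).prod ⊗ₜ h}

theorem tmul_mem_mixed (F : V →ₗ[ℂ] V) (G : H →ₗ[ℂ] H) (Q : ℂ) (n : ℕ) (c : ℤ) (k : ℕ)
    (hn : n = 2 * k) (h : H)
    (hh : ∃ N : ℕ, 0 < N ∧ (G ^ N) h = (Q ^ (c - k)) ^ N • h) (x : ExteriorAlgebra ℂ V)
    (hx : x ∈ divSpan F Q k) : x ⊗ₜ[ℂ] h ∈ mixedProducts F G Q n c := by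
  have h' : divSpan F Q k ≤ (mixedProducts F G Q n c).comap
      ((TensorProduct.mk ℂ (ExteriorAlgebra ℂ V) H).flip h) := by
    refine Submodule.span_le.2 ?_
    rintro _ ⟨Z, hZ, rfl⟩
    exact Submodule.subset_span ⟨k, Z, h, hn, hZ, hh, rfl⟩
  exact h' hx

/-- A relation implies a pair. -/
def ExactPair {X : Type*} (val : X → ℂ) (Q ρ : ℂ) : Prop :=
  ∀ (n : ℕ) (c : ℤ) (s : ℕ), 0 < s → 0 < n → ∀ ys : List X, ys.length = n →
    ((ys.map val).prod * ρ) ^ s = (Q ^ c) ^ s →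
      ¬ ys.Pairwise (fun y y' => val y * val y' ≠ Q)

theorem list_exact {X : Type*} (F : V →ₗ[ℂ] V) (val : X → ℂ) (Q ρ : ℂ) (hQ : Q ≠ 0)
    (hpair : ExactPair val Q ρ) :
    ∀ (n : ℕ) (c : ℤ) (s : ℕ), 0 < s → ∀ L : List (V × X), L.length = n →
      (∀ e ∈ L, F e.1 = val e.2 • e.1) →
      ((L.map (fun e => val e.2)).prod * ρ) ^ s = (Q ^ c) ^ s →
      ∃ k : ℕ, n = 2 * k ∧ (L.map (fun e => val e.2)).prod = Q ^ k ∧
        (L.map (fun e => ι ℂ e.1)).prod ∈ divSpan F Q k := by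
  intro n
  induction n using Nat.strong_induction_on with
  | _ n ih =>
    intro c s hs L hlen hL hrel
    rcases Nat.eq_zero_or_pos n with hn | hn
    · subst hn
      have hL0 : L = [] := List.length_eq_zero_iff.1 hlen
      subst hL0
      exact ⟨0, rfl, by simp, Submodule.subset_span ⟨Fin.elim0, fun l => l.elim0, by simp⟩⟩
    · have h1 := hpair n c s hs hn (L.map Prod.snd) (by rw [List.length_map, hlen]) (by
        rw [List.map_map]
        exact hrel)
      rw [List.pairwise_map] at h1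
      obtain ⟨e, e', L', hperm, hgood⟩ := exists_of_not_pairwise _ L h1
      rw [not_not] at hgood
      have heL : e ∈ L := hperm.mem_iff.2 (by simp)
      have heL' : e' ∈ L := hperm.mem_iff.2 (by simp)
      have hlen' : n = L'.length + 2 := by
        have h2 := hperm.length_eq
        rw [List.length_cons, List.length_cons, hlen] at h2
        omega
      obtain ⟨b', hb'⟩ := prod_perm (K := ℂ) hperm
      have h3 : (L.map (fun e => val e.2)).prod = Q * (L'.map (fun e => val e.2)).prod := by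
        rw [(hperm.map (fun e => val e.2)).prod_eq, List.map_cons, List.prod_cons,
          List.map_cons, List.prod_cons, ← mul_assoc, hgood]
      obtain ⟨k, h2, h4, h5⟩ := ih L'.length (by omega) (c - 1) s hs L' rfl
        (fun e₁ he₁ => hL e₁ (hperm.mem_iff.2
          (List.mem_cons_of_mem _ (List.mem_cons_of_mem _ he₁)))) (by
        have h6 : Q ^ c = Q * Q ^ (c - 1) := by
          rw [← zpow_one_add₀ hQ]
          congr 1
          ring
        rw [h3, h6, mul_assoc, mul_pow, mul_pow Q] at hrel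
        exact mul_left_cancel₀ (pow_ne_zero _ hQ) hrel)
      refine ⟨k + 1, by omega, by rw [h3, h4, pow_succ'], ?_⟩
      rw [hb']
      refine Submodule.smul_mem _ _ ?_
      rw [List.map_cons, List.prod_cons, List.map_cons, List.prod_cons, ← mul_assoc]
      exact mul_mem_divSpan F _ k _
        (isDivisorClass_of_good F _ _ _ _ _ (hL e heL) (hL e' heL')
          ⟨1, one_pos, by rw [pow_one, pow_one]; exact hgood⟩) _ h5

/-- **Tate classes on the product.** -/
theorem mem_mixedProducts {X : Type*} [FiniteDimensional ℂ V] [FiniteDimensional ℂ H]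
    (F : V →ₗ[ℂ] V) (val : X → ℂ) (hF : Submodule.span ℂ {v : V | ∃ x, F v = val x • v} = ⊤)
    (Q : ℂ) (hQ : Q ≠ 0) (G : H →ₗ[ℂ] H)
    (hG : ∀ ρ, Module.End.HasEigenvalue G ρ → ExactPair val Q ρ)
    (n : ℕ) (c : ℤ) (s : ℕ) (hs : 0 < s) (u : (⋀[ℂ]^n V) ⊗[ℂ] H)
    (hu : TensorProduct.map (exteriorPower.map n F ^ s) (G ^ s) u = (Q ^ c) ^ s • u) :
    incl V H n u ∈ mixedProducts F G Q n c := by
  classical
  obtain ⟨r, b', α, hα, hb'⟩ := exists_eigenbasis_list F val hF n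
  obtain ⟨h, hh, h1⟩ := components_left (exteriorPower.map n F ^ s) (G ^ s) b'
    (fun j => α j ^ s) (fun j => pow_apply_eigen _ _ _ (hb' j) s) _ u hu
  rw [hh, map_sum]
  refine Submodule.sum_mem _ fun j _ => ?_
  have h5 : incl V H n (b' j ⊗ₜ h j) = (b' j : ExteriorAlgebra ℂ V) ⊗ₜ h j := by
    rw [incl, TensorProduct.map_tmul]
    rfl
  rw [h5]
  by_cases hj : h j = 0
  · rw [hj, TensorProduct.tmul_zero]
    exact Submodule.zero_mem _
  have hQc : (Q ^ c) ^ s ≠ 0 := pow_ne_zero _ (zpow_ne_zero _ hQ)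
  have hα0 : α j ^ s ≠ 0 := by
    intro h0
    have h2 := h1 j
    rw [h0, zero_smul] at h2
    rcases smul_eq_zero.1 h2.symm with h4 | h4
    · exact hQc h4
    · exact hj h4
  obtain ⟨c', hc'⟩ : ∃ c', c' = (Q ^ c) ^ s / α j ^ s := ⟨_, rfl⟩
  have h2 : (G ^ s) (h j) = c' • h j := by
    have h3 := congrArg (fun z => (α j ^ s)⁻¹ • z) (h1 j)
    simp only [smul_smul] at h3
    rw [inv_mul_cancel₀ hα0, one_smul] at h3
    rw [h3, hc', div_eq_inv_mul]
  have h3 : Module.End.HasEigenvalue (G ^ s) c' :=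
    Module.End.hasEigenvalue_of_hasEigenvector ⟨Module.End.mem_eigenspace_iff.2 h2, hj⟩
  have h4 : c' ∈ spectrum ℂ (G ^ s) := Module.End.hasEigenvalue_iff_mem_spectrum.1 h3
  rw [spectrum.map_pow_of_pos G hs] at h4
  obtain ⟨ρ, hρ, hρs⟩ := h4
  have hρe : Module.End.HasEigenvalue G ρ := Module.End.hasEigenvalue_iff_mem_spectrum.2 hρ
  have hpair := hG ρ hρe
  have hρs : ρ ^ s = c' := hρs
  have hrel : (α j * ρ) ^ s = (Q ^ c) ^ s := by
    rw [mul_pow, hρs, hc', mul_div_cancel₀ _ hα0]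
  have hlist := list_exact (V := V) F val Q ρ hQ hpair n c s hs
  obtain ⟨L, hL, hLα⟩ := hα j
  obtain ⟨k, hk, hkα, _⟩ := hlist (L.map (fun x => ((0 : V), x)))
    (by rw [List.length_map, hL])
    (by
      intro e he
      rw [List.mem_map] at he
      obtain ⟨x, _, rfl⟩ := he
      rw [map_zero, smul_zero]) (by
      rw [List.map_map]
      have h6 : ((fun e : V × X => val e.2) ∘ fun x => ((0 : V), x)) = val := rfl
      rw [h6, ← hLα]
      exact hrel)
  have hαk : α j = Q ^ k := by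
    rw [← hkα, List.map_map, hLα]
    rfl
  refine tmul_mem_mixed F G Q n c k hk (h j) ⟨s, hs, ?_⟩ _ ?_
  · rw [h2, hc', hαk]
    congr 1
    rw [zpow_sub₀ hQ, zpow_natCast, div_pow]
  · have h6 : ExteriorAlgebra.map F (b' j : ExteriorAlgebra ℂ V) = α j • (b' j :
        ExteriorAlgebra ℂ V) := by
      rw [← Pool.Agent.W484.BB.coe_map, hb' j]
      rfl
    refine mem_of_lists_sub F val hF n 1 (α j) _ ?_ _ (b' j).2 (by
      rw [pow_one]
      exact h6)
    intro L hlen hL hLα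
    rw [pow_one] at hLα
    obtain ⟨k', hk', -, h7⟩ := hlist L hlen hL (by rw [hLα]; exact hrel)
    have h8 : k' = k := by omega
    rw [← h8]
    exact h7

/-- The eigenvalue `μ` of `T` is semisimple: the generalized eigenspace is the eigenspace. (This
includes the case that `μ` is not an eigenvalue.) -/
def SemisimpleAt {M : Type*} [AddCommGroup M] [Module ℂ M] (T : M →ₗ[ℂ] M) (μ : ℂ) : Prop :=
  ∀ x : M, T (T x - μ • x) = μ • (T x - μ • x) → T x = μ • x

theorem exists_components {U : Type*} [AddCommGroup U] [Module ℂ U] {r : ℕ}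
    (T : U →ₗ[ℂ] U) (G : H →ₗ[ℂ] H) (b : Basis (Fin r) ℂ U) (c : Fin r → ℂ)
    (hb : ∀ j, T (b j) = c j • b j) :
    ∃ e : (U ⊗[ℂ] H) ≃ₗ[ℂ] (Fin r →₀ H),
      ∀ u j, e (TensorProduct.map T G u) j = c j • G (e u j) := by
  classical
  refine ⟨TensorProduct.equivFinsuppOfBasisLeft b, fun u j => ?_⟩
  have hT : ∀ x, b.repr (T x) j = c j * b.repr x j := by
    intro x
    have h1 : b.coord j ∘ₗ T = c j • b.coord j := by
      refine b.ext fun i => ?_
      rw [LinearMap.comp_apply, hb, map_smul, LinearMap.smul_apply, Basis.coord_apply,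
        Basis.repr_self, Finsupp.single_apply]
      split_ifs with h
      · rw [h]
      · rw [smul_zero, smul_zero]
    exact LinearMap.congr_fun h1 x
  induction u using TensorProduct.induction_on with
  | zero => simp
  | tmul x y =>
    rw [TensorProduct.map_tmul, TensorProduct.equivFinsuppOfBasisLeft_apply_tmul_apply,
      TensorProduct.equivFinsuppOfBasisLeft_apply_tmul_apply, hT, map_smul, smul_smul]
  | add x y hx hy =>
    rw [map_add, map_add, map_add, Finsupp.add_apply, Finsupp.add_apply, hx, hy, map_add, smul_add]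

/-- **Semisimplicity on the product.** -/
theorem semisimpleAt_product {X : Type*} [FiniteDimensional ℂ V]
    (F : V →ₗ[ℂ] V) (val : X → ℂ) (hF : Submodule.span ℂ {v : V | ∃ x, F v = val x • v} = ⊤)
    (Q : ℂ) (hQ : Q ≠ 0) (G : H →ₗ[ℂ] H)
    (hG : ∀ ρ, Module.End.HasEigenvalue G ρ → ExactPair val Q ρ) (n : ℕ) (c : ℤ)
    (hss : ∀ k : ℕ, n = 2 * k → SemisimpleAt G (Q ^ (c - k))) :
    SemisimpleAt (M := (⋀[ℂ]^n V) ⊗[ℂ] H) (TensorProduct.map (exteriorPower.map n F) G)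
      (Q ^ c) := by
  classical
  obtain ⟨r, b', α, hα, hb'⟩ := exists_eigenbasis_list F val hF n
  obtain ⟨e, he⟩ := exists_components (exteriorPower.map n F) G b' α hb'
  intro u hu
  apply e.injective
  refine Finsupp.ext fun j => ?_
  have h1 := congrArg (fun w => e w j) hu
  beta_reduce at h1
  rw [he, map_smul, Finsupp.smul_apply, map_sub, map_smul, Finsupp.sub_apply, he,
    Finsupp.smul_apply] at h1
  rw [he, map_smul, Finsupp.smul_apply]
  set v := e u j with hv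
  set w := α j • G v - Q ^ c • v with hw
  rw [← sub_eq_zero, ← hw]
  by_contra hw0
  have hQc : Q ^ c ≠ 0 := zpow_ne_zero _ hQ
  have hα0 : α j ≠ 0 := by
    intro h0
    rw [h0, zero_smul] at h1
    rcases smul_eq_zero.1 h1.symm with h4 | h4
    · exact hQc h4
    · exact hw0 h4
  have h2 : G w = (Q ^ c / α j) • w := by
    have h3 := congrArg (fun z => (α j)⁻¹ • z) h1
    simp only [smul_smul] at h3
    rw [inv_mul_cancel₀ hα0, one_smul] at h3
    rw [h3, div_eq_inv_mul]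
  have h3 : Module.End.HasEigenvalue G (Q ^ c / α j) :=
    Module.End.hasEigenvalue_of_hasEigenvector ⟨Module.End.mem_eigenspace_iff.2 h2, hw0⟩
  obtain ⟨L, hL, hLα⟩ := hα j
  obtain ⟨k, hk, hkα, _⟩ := list_exact (V := V) F val Q _ hQ (hG _ h3) n c 1 one_pos
    (L.map (fun x => ((0 : V), x))) (by rw [List.length_map, hL])
    (by
      intro e he
      rw [List.mem_map] at he
      obtain ⟨x, _, rfl⟩ := he
      rw [map_zero, smul_zero]) (by
      rw [List.map_map]
      have h6 : ((fun e : V × X => val e.2) ∘ fun x => ((0 : V), x)) = val := rfl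
      rw [h6, ← hLα, pow_one, pow_one, mul_div_cancel₀ _ hα0])
  have hαk : α j = Q ^ k := by
    rw [← hkα, List.map_map, hLα]
    rfl
  have hQk : Q ^ k ≠ 0 := pow_ne_zero _ hQ
  have hQck : Q ^ c = Q ^ k * Q ^ (c - k) := by
    rw [← zpow_natCast, ← zpow_add₀ hQ]
    congr 1
    ring
  have hw' : w = Q ^ k • (G v - Q ^ (c - (k : ℤ)) • v) := by
    rw [hw, hαk, hQck, smul_sub, smul_smul]
  have h4 : G v = Q ^ (c - (k : ℤ)) • v := by
    refine hss k hk v ?_
    have h5 : G v - Q ^ (c - (k : ℤ)) • v = (Q ^ k)⁻¹ • w := by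
      rw [hw', smul_smul, inv_mul_cancel₀ hQk, one_smul]
    rw [h5, map_smul, h2, smul_comm, hαk, hQck, mul_div_cancel_left₀ _ hQk]
  apply hw0
  rw [hw', h4, sub_self, smul_zero]

end general

/-- `G` is injective, and its eigenvalues and all their conjugates over `ℚ` lie, up to powers, in a
group generated by `q` and `r` numbers. -/
def SmallRank {H : Type} [AddCommGroup H] [Module ℂ H] (q r : ℕ) (G : H →ₗ[ℂ] H) : Prop :=
  ∃ χ : ℚ[X], χ ≠ 0 ∧ (∀ ρ, Module.End.HasEigenvalue G ρ → aeval ρ χ = 0) ∧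
    RankLE q r {ρ : ℂ | aeval ρ χ = 0}

theorem zero_not_rank {q r : ℕ} (hq : q ≠ 0) {E : Set ℂ} (h : RankLE q r E) : (0 : ℂ) ∉ E := by
  intro h0
  obtain ⟨u, hu, h1⟩ := h
  obtain ⟨N, e, m, hN, h2⟩ := h1 0 h0
  rw [zero_pow hN.ne'] at h2
  have hqC : (q : ℂ) ≠ 0 := by exact_mod_cast hq
  exact mul_ne_zero (zpow_ne_zero _ hqC)
    (Finset.prod_ne_zero_iff.2 fun t _ => zpow_ne_zero _ (hu t)) h2.symm

theorem exactPair_of_good {I : Type} [Finite I] (g : I → ℕ)
    {q : ℕ} (hq : q ≠ 0) (r : ℕ) (hr : ∀ i, r < g i)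
    (x : (Σ i, Fin (g i)) → ℤ) (hx : Pool.Agent.W521.Bad.Good g q x)
    (s : ℕ) (hs : 0 < s) {H : Type} [AddCommGroup H] [Module ℂ H] (G : H →ₗ[ℂ] H)
    (hG : SmallRank q r G) (ρ : ℂ) (hρe : Module.End.HasEigenvalue G ρ) :
    ExactPair (fun z : {z : ℂ // ∃ i, aeval z (weil q (polys g x i)) = 0} => (z : ℂ) ^ s)
      ((q : ℂ) ^ s) ρ := by
  obtain ⟨hpat, hirr, hss⟩ := hx
  obtain ⟨χ, hχ, hχe, hrank⟩ := hG
  have hm : ∀ i, (polys g x i).Monic := fun i => mkPoly_monic (g i) _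
  have hρ : aeval ρ χ = 0 := hχe ρ hρe
  have hρ0 : ρ ≠ 0 := by
    rintro rfl
    exact zero_not_rank hq hrank hρ
  intro n c N hN hn ys hlen hrel hpw
  let X := {z : ℂ // ∃ i, aeval z (weil q (polys g x i)) = 0}
  refine no_relation_rank hq hm hirr hpat hss r (fun i => by
      rw [show (polys g x i).natDegree = g i from mkPoly_natDegree (g i) _]
      exact hr i) χ hχ hrank ρ hρ hρ0 s hs hn c N hN
    (fun l => ((ys.get (Fin.cast hlen.symm l) : X) : ℂ))
    (fun l => (ys.get (Fin.cast hlen.symm l)).2) ?_ ?_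
  · rw [← hrel]
    congr 2
    have h6 : ∏ l : Fin n, ((ys.get (Fin.cast hlen.symm l) : X) : ℂ) =
        (ys.map (fun y : X => (y : ℂ))).prod := by
      have h61 : ∏ l : Fin n, ((ys.get (Fin.cast hlen.symm l) : X) : ℂ) =
          ∏ l : Fin ys.length, ((ys.get l : X) : ℂ) :=
        Fintype.prod_equiv (finCongr hlen.symm) _ _ fun l => rfl
      rw [h61, ← List.prod_ofFn]
      congr 1
      apply List.ext_getElem
      · simp
      · intro i h1 h2
        simp
    rw [h6]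
    have h7 : ∀ ys : List X, (ys.map (fun y : X => (y : ℂ))).prod ^ s =
        (ys.map (fun y : X => (y : ℂ) ^ s)).prod := by
      intro ys
      induction ys with
      | nil => simp
      | cons y ys ih =>
        rw [List.map_cons, List.prod_cons, mul_pow, ih, List.map_cons, List.prod_cons]
    exact h7 ys
  · have hbad : ∀ k' l' : Fin ys.length, k' < l' →
        ((ys.get k' : X) : ℂ) * ((ys.get l' : X) : ℂ) ≠ q := by
      intro k' l' hkl h8
      refine (List.pairwise_iff_get.1 hpw) k' l' hkl ?_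
      change ((ys.get k' : X) : ℂ) ^ s * ((ys.get l' : X) : ℂ) ^ s = _
      rw [← mul_pow, h8]
    intro k' l' hkl
    rcases lt_or_gt_of_ne hkl with h | h
    · exact hbad _ _ h
    · intro h8
      rw [mul_comm] at h8
      exact hbad _ _ h h8

/-- Every class in `⋀ ^ n V ⊗ H` on which the `N`-th power of Frobenius acts as `Q ^ (c N)` is a
linear combination of products of `k = n / 2` divisor classes and a class in `H` on which a power
`N` of Frobenius acts as `Q ^ ((c - k) N)`. -/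
def TateSplits {V : Type} [AddCommGroup V] [Module ℂ V] {H : Type} [AddCommGroup H] [Module ℂ H]
    (Q : ℂ) (F : V →ₗ[ℂ] V) (G : H →ₗ[ℂ] H) : Prop :=
  ∀ (n : ℕ) (c : ℤ) (N : ℕ), 0 < N → ∀ u : (⋀[ℂ]^n V) ⊗[ℂ] H,
    TensorProduct.map (exteriorPower.map n F ^ N) (G ^ N) u = (Q ^ c) ^ N • u →
      incl V H n u ∈ mixedProducts F G Q n c

/-- The formula for all products of powers of abelian varieties with characteristic polynomials
`f i`, all extensions, and all `H` of rank at most `r`. -/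
def TateForSmallRank {I : Type} (q r : ℕ) (f : I → ℤ[X]) : Prop :=
  ∀ (V : Type) [AddCommGroup V] [Module ℂ V] [FiniteDimensional ℂ V] (F : V →ₗ[ℂ] V),
    Submodule.span ℂ {v : V | ∃ i, ∃ z : ℂ, aeval z (f i) = 0 ∧ F v = z • v} = ⊤ →
    ∀ s : ℕ, 0 < s →
    ∀ (H : Type) [AddCommGroup H] [Module ℂ H] [FiniteDimensional ℂ H] (G : H →ₗ[ℂ] H),
      SmallRank q r G → TateSplits ((q : ℂ) ^ s) (F ^ s) G

/-- The eigenvalue `Q ^ c` of the Frobenius on `⋀ ^ n V ⊗ H` is semisimple if `n` is odd, or if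
`n = 2 k` is even and the eigenvalue `Q ^ (c - k)` of the Frobenius on `H` is semisimple. -/
def SemisimpleSplits {V : Type} [AddCommGroup V] [Module ℂ V] {H : Type} [AddCommGroup H]
    [Module ℂ H] (Q : ℂ) (F : V →ₗ[ℂ] V) (G : H →ₗ[ℂ] H) : Prop :=
  ∀ (n : ℕ) (c : ℤ), (∀ k : ℕ, n = 2 * k → SemisimpleAt G (Q ^ (c - k))) →
    SemisimpleAt (M := (⋀[ℂ]^n V) ⊗[ℂ] H) (TensorProduct.map (exteriorPower.map n F) G) (Q ^ c)

/-- The semisimplicity for all products of powers of abelian varieties with characteristic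
polynomials `f i`, all extensions, and all `H` of rank at most `r`. -/
def SemisimpleForSmallRank {I : Type} (q r : ℕ) (f : I → ℤ[X]) : Prop :=
  ∀ (V : Type) [AddCommGroup V] [Module ℂ V] [FiniteDimensional ℂ V] (F : V →ₗ[ℂ] V),
    Submodule.span ℂ {v : V | ∃ i, ∃ z : ℂ, aeval z (f i) = 0 ∧ F v = z • v} = ⊤ →
    ∀ s : ℕ, 0 < s →
    ∀ (H : Type) [AddCommGroup H] [Module ℂ H] [FiniteDimensional ℂ H] (G : H →ₗ[ℂ] H),
      SmallRank q r G → SemisimpleSplits ((q : ℂ) ^ s) (F ^ s) G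

theorem span_pow {I : Type} {f : I → ℤ[X]} {V : Type} [AddCommGroup V] [Module ℂ V]
    (F : V →ₗ[ℂ] V)
    (hF : Submodule.span ℂ {v : V | ∃ i, ∃ z : ℂ, aeval z (f i) = 0 ∧ F v = z • v} = ⊤) (s : ℕ) :
    Submodule.span ℂ {v : V | ∃ y : {z : ℂ // ∃ i, aeval z (f i) = 0},
      (F ^ s) v = (y : ℂ) ^ s • v} = ⊤ := by
  rw [eq_top_iff, ← hF]
  refine Submodule.span_mono ?_
  rintro v ⟨i, z, hz, hv⟩
  exact ⟨⟨z, i, hz⟩, pow_apply_eigen F v z hv s⟩

theorem tateForSmallRank_of_good {I : Type} [Finite I] (g : I → ℕ)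
    {q : ℕ} (hq : q ≠ 0) (r : ℕ) (hr : ∀ i, r < g i)
    (x : (Σ i, Fin (g i)) → ℤ) (hx : Pool.Agent.W521.Bad.Good g q x) :
    TateForSmallRank q r (fun i => weil q (polys g x i)) := by
  intro V _ _ _ F hF s hs H _ _ _ G hG n c N hN u hu
  have hQ : (q : ℂ) ^ s ≠ 0 := pow_ne_zero _ (by exact_mod_cast hq)
  exact mem_mixedProducts (F ^ s) _ (span_pow F hF s) ((q : ℂ) ^ s) hQ G
    (fun ρ hρ => exactPair_of_good g hq r hr x hx s hs G hG ρ hρ) n c N hN u hu

theorem semisimpleForSmallRank_of_good {I : Type} [Finite I] (g : I → ℕ)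
    {q : ℕ} (hq : q ≠ 0) (r : ℕ) (hr : ∀ i, r < g i)
    (x : (Σ i, Fin (g i)) → ℤ) (hx : Pool.Agent.W521.Bad.Good g q x) :
    SemisimpleForSmallRank q r (fun i => weil q (polys g x i)) := by
  intro V _ _ _ F hF s hs H _ _ _ G hG n c hss
  have hQ : (q : ℂ) ^ s ≠ 0 := pow_ne_zero _ (by exact_mod_cast hq)
  exact semisimpleAt_product (F ^ s) _ (span_pow F hF s) ((q : ℂ) ^ s) hQ G
    (fun ρ hρ => exactPair_of_good g hq r hr x hx s hs G hG ρ hρ) n c hss

/-- **The count.** -/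
theorem count_of_good {I : Type} [Fintype I] (g : I → ℕ) (hg : ∀ i, 0 < g i)
    (P : ℕ → (I → ℤ[X]) → Prop)
    (hP : ∀ q : ℕ, IsPrimePow q → ∀ x : (Σ i, Fin (g i)) → ℤ,
      Pool.Agent.W521.Bad.Good g q x → P q (fun i => weil q (polys g x i))) :
    ∃ C : ℝ, ∀ q : ℕ, IsPrimePow q → ∀ S : I → Set ℤ[X],
      (∀ i, ordinaryWeilPolys q (g i) ⊆ S i ∧ S i ⊆ weilPolys q (g i)) →
      (∀ i, (S i).Finite ∧ (S i).Nonempty) ∧
      ({f : I → ℤ[X] | (∀ i, f i ∈ S i) ∧ ¬ P q f}.ncard : ℝ) ≤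
        C * (Real.log q * (q : ℝ) ^ (-(1 / 6) : ℝ)) * ∏ i, ((S i).ncard : ℝ) := by
  classical
  obtain ⟨C, hC, h⟩ := Pool.Agent.W521.Total.main_count g hg
  refine ⟨C, fun q hq S hS => ?_⟩
  have hsub : ∀ i, S i ⊆ weilPolys q (g i) := fun i => (hS i).2
  have hfinS : ∀ i, (S i).Finite := fun i => (finite_weilPolys hq.pos.ne').subset (hsub i)
  refine ⟨fun i => ⟨hfinS i, ⟨_, (hS i).1 (ordinary_nonempty hq.pos (g i))⟩⟩, ?_⟩
  have h1 := h q hq (P q) (fun x hx => hP q hq x hx)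
  have hfin : {f : I → ℤ[X] | (∀ i, f i ∈ weilPolys q (g i)) ∧ ¬ P q f}.Finite :=
    (Pool.Agent.W521.Total.finite_tuples g hq.pos.ne').subset fun f hf => hf.1
  have h2 : {f : I → ℤ[X] | (∀ i, f i ∈ S i) ∧ ¬ P q f}.ncard ≤
      {f : I → ℤ[X] | (∀ i, f i ∈ weilPolys q (g i)) ∧ ¬ P q f}.ncard :=
    Set.ncard_le_ncard (fun f hf => ⟨fun i => hsub i (hf.1 i), hf.2⟩) hfin
  have hr : 0 ≤ Real.log q * (q : ℝ) ^ (-(1 / 6) : ℝ) := rate_nonneg q
  calc ({f : I → ℤ[X] | (∀ i, f i ∈ S i) ∧ ¬ P q f}.ncard : ℝ) ≤ _ := by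
        exact_mod_cast h2
    _ ≤ C * (Real.log q * (q : ℝ) ^ (-(1 / 6) : ℝ)) *
          ∏ i, ((ordinaryWeilPolys q (g i)).ncard : ℝ) := h1
    _ ≤ C * (Real.log q * (q : ℝ) ^ (-(1 / 6) : ℝ)) * ∏ i, ((S i).ncard : ℝ) := by
        refine mul_le_mul_of_nonneg_left ?_ (mul_nonneg hC.le hr)
        refine Finset.prod_le_prod (fun i _ => Nat.cast_nonneg _) fun i _ => ?_
        exact_mod_cast Set.ncard_le_ncard (hS i).1 (hfinS i)

end Pool.Agent.W484.AA
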